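import Pool.Agent.Helper18.EP.BAS
import Pool.Agent.Helper18.EP.ENG
import Pool.Agent.Helper18.EP.ITR
import Pool.Agent.Helper2.EP.CONS
import Pool.Agent.Helper2.EP.DEC
import Pool.Agent.Helper2.EP.LIFT
import Pool.Agent.Helper2.EP.PROJ
import Pool.Agent.Helper24.EP.DL
import Pool.Agent.Helper24.EP.THE
import Pool.Agent.Helper26.EP.CLO1
import Pool.Agent.Helper26.EP.IND
import Pool.Agent.Helper26.EP.RK1
import Pool.Agent.Helper27.EP.CONF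
import Pool.Agent.Helper30.EP.RK2
import Pool.Agent.Helper33.EP.FIN
import Pool.Agent.Helper33.EP.Q4
import Pool.Agent.Helper34.EP.CLO2
import Pool.Agent.Helper4.EP.I3
import Pool.Agent.Helper4.EP.TEP
import Pool.Agent.Helper45.EP.TSYS
import Pool.Agent.Helper46.EP.CPEEL
import Pool.Agent.Helper46.EP.CYCL
import Pool.Agent.Helper46.EP.HAV
import Pool.Agent.Helper46.EP.HU3
import Pool.Agent.Helper46.EP.HU5
import Pool.Agent.Helper46.EP.HUL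
import Pool.Agent.Helper46.EP.LNK
import Pool.Agent.Helper46.EP.MENC
import Pool.Agent.Helper46.EP.MENW
import Pool.Agent.Helper46.EP.RCM
import Pool.Agent.Helper46.EP.ROB
import Pool.Agent.Helper46.EP.SEL
import Pool.Agent.Helper46.EP.SYS
import Pool.Agent.Helper46.EP.TRA
import Pool.Agent.Helper46.EP.XBAR
import Pool.Agent.Helper56.EP.PATHR
import Pool.Agent.Helper57.EP.ITR1
import Pool.Agent.Helper57.EP.STEP
import Pool.Agent.Helper59.EP.PA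
import Pool.Agent.Helper59.EP.ZO
import Pool.Agent.Helper60.EP.ARC
import Pool.Agent.Helper60.EP.LOC
import Pool.Agent.Helper60.EP.LOC0
import Pool.Agent.Helper63.EP.CER5
import Pool.Agent.Helper68.EP.EP5
import Pool.Agent.Helper68.EP.POT
import Pool.Agent.Helper79.EP.CA
import Pool.Agent.Helper79.EP.PEEL
import Pool.Agent.Helper8.EP.CER3
import Pool.Agent.Helper8.EP.CER4
import Pool.Agent.Helper8.EP.REPL
import Pool.Agent.Helper97.EP.UARC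

set_option autoImplicit false

namespace ErdPos.All

open ErdPos

theorem a_RK1 : ST_RK1 := ErdPos.st_RK1 
theorem a_BAS : ST_BAS := ErdPos.bas a_RK1
theorem a_HAV : ST_HAV := ErdPos.st_HAV 
theorem a_RK2 : ST_RK2 := ErdPos.st_RK2 a_RK1
theorem a_IND : ST_IND := ErdPos.st_IND a_RK1 a_RK2
theorem a_MENW : ST_MENW := ErdPos.st_MENW 
theorem a_STEP : ST_STEP := ErdPos.st_STEP a_RK1 a_RK2 a_IND a_MENW
theorem a_TRA : ST_TRA := ErdPos.st_TRA 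
theorem a_ITR1 : ST_ITR1 := ErdPos.st_ITR1 a_STEP a_TRA
theorem a_ITR : ST_ITR := ErdPos.itr a_ITR1
theorem a_PATHR : ST_PATHR := ErdPos.st_PATHR a_RK1 a_RK2
theorem a_LNK : ST_LNK := ErdPos.st_LNK a_RK1 a_MENW
theorem a_SEL : ST_SEL := ErdPos.st_SEL 
theorem a_XBAR : ST_XBAR := ErdPos.st_XBAR a_PATHR a_BAS a_LNK a_SEL a_RK1
theorem a_MENC : ST_MENC := ErdPos.st_MENC a_MENW
theorem a_RCM : ST_RCM := ErdPos.st_RCM a_MENC
theorem a_CLO1 : ST_CLO1 := ErdPos.st_CLO1 a_XBAR a_RCM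
theorem a_CLO2 : ST_CLO2 := ErdPos.st_CLO2 
theorem a_Q4 : ST_Q4 := ErdPos.st_Q4 a_MENW
theorem a_FIN : ST_FIN := ErdPos.st_FIN a_CLO2 a_Q4
theorem a_ENG : ST_ENG := ErdPos.eng a_HAV a_ITR a_CLO1 a_FIN
theorem a_PA : ST_PA := ErdPos.st_PA 
theorem a_CA : ST_CA := ErdPos.st_CA a_PA
theorem a_POT : ST_POT := ErdPos.st_POT a_PA a_CA
theorem a_TSYS : ST_TSYS := ErdPos.st_TSYS a_POT
theorem a_ROB : ST_ROB := ErdPos.st_ROB a_PA a_CA a_RK1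
theorem a_HUL : ST_HUL := ErdPos.st_HUL a_RK1 a_RK2 a_ROB
theorem a_HU3 : ST_HU3 := ErdPos.st_HU3 a_PA a_ROB a_HUL
theorem a_PEEL : ST_PEEL := ErdPos.st_PEEL a_PA a_ROB a_HUL a_HU3
theorem a_CPEEL : ST_CPEEL := ErdPos.st_CPEEL a_PA a_CA a_ROB a_HUL
theorem a_PROJ : ST_PROJ := ErdPos.st_PROJ a_PA a_CA a_HUL a_PEEL a_CPEEL
theorem a_LIFT : ST_LIFT := ErdPos.st_LIFT a_PA a_CA a_ROB a_HUL a_HU3
theorem a_DL : ST_DL := ErdPos.st_DL a_ENG a_PA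
theorem a_UARC : ST_UARC := ErdPos.st_UARC a_PA a_CA
theorem a_I3 : ST_I3 := ErdPos.st_I3 a_PA a_CA
theorem a_REPL : ST_REPL := ErdPos.st_REPL a_PA a_CA a_UARC
theorem a_TEP : ST_TEP := ErdPos.st_TEP a_DL a_UARC a_I3 a_REPL a_PA a_CA
theorem a_CONS : ST_CONS := ErdPos.st_CONS a_TSYS a_PROJ a_LIFT a_TEP a_HU3 a_HUL
theorem a_DEC : ST_DEC := ErdPos.st_DEC a_PA a_CA a_HUL a_PEEL a_CPEEL
theorem a_THE : ST_THE := ErdPos.st_THE a_PA a_CA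
theorem a_CONF : ST_CONF := ErdPos.st_CONF a_PA a_CA a_ROB a_HUL a_HU3 a_DEC
theorem a_CYCL : ST_CYCL := ErdPos.st_CYCL a_PA a_CA
theorem a_HU5 : ST_HU5 := ErdPos.st_HU5 a_MENW a_HUL
theorem a_SYS : ST_SYS := ErdPos.st_SYS a_CYCL
theorem a_ZO : ST_ZO := ErdPos.st_ZO a_PA a_CA a_HUL a_PEEL a_CPEEL
theorem a_ARC : ST_ARC := ErdPos.st_ARC a_PA a_CA
theorem a_LOC0 : ST_LOC0 := ErdPos.st_LOC0 a_CA a_ROB a_HUL
theorem a_CER3 : ST_CER3 := ErdPos.st_CER3 a_HUL a_HU5 a_THE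
theorem a_CER4 : ST_CER4 := ErdPos.st_CER4 a_ROB a_HUL a_HU3 a_MENW a_CONF
theorem a_CER5 : ST_CER5 := ErdPos.st_CER5 a_PA a_CA a_ROB a_HUL a_DEC a_ARC
theorem a_LOC : ST_LOC := ErdPos.st_LOC a_LOC0 a_CER3 a_CER4 a_ZO a_CER5 a_CONS a_CA
theorem a_EP5 : ST_EP5 := ErdPos.st_EP5 a_ENG a_LOC a_CA

end ErdPos.All
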