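import Mathlib

/-!
# Erdős–Pósa properties of group-labelled cycles

Definitions for MP_45fa85_co.
-/

namespace ErdPos

open Finset

/-- `F` is the edge set of a cycle of `G`. -/
def IsCyc {V : Type} (G : SimpleGraph V) (F : Finset (Sym2 V)) : Prop :=
  ∃ (v : V) (c : G.Walk v v), c.IsCycle ∧ ∀ e, e ∈ F ↔ e ∈ c.edges

/-- The vertex `v` lies on the cycle with edge set `F`. -/
def On {V : Type} (v : V) (F : Finset (Sym2 V)) : Prop := ∃ e ∈ F, v ∈ e

/-- Property `EP_s` of `(Γ, A)`: for some `f`, for every finite graph `G`, every labelling `γ` of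
its edges with elements of `Γ` and every `k ≥ 1`, either there are `k` (different) cycles of `G`
with `γ`-value in `A` such that every vertex lies on at most `s - 1` of them, or at most `f k`
vertices meet all cycles of `G` with `γ`-value in `A`. -/
def EP (Γ : Type) [AddCommGroup Γ] (A : Set Γ) (s : ℕ) : Prop :=
  ∃ f : ℕ → ℕ, ∀ (V : Type) [Finite V] (G : SimpleGraph V) (γ : Sym2 V → Γ) (k : ℕ), 1 ≤ k →
    (∃ P : Finset (Finset (Sym2 V)), P.card = k ∧ (∀ F ∈ P, IsCyc G F ∧ ∑ e ∈ F, γ e ∈ A) ∧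
      ∀ v : V, {F | F ∈ P ∧ On v F}.ncard ≤ s - 1) ∨
    (∃ H : Finset V, H.card ≤ f k ∧
      ∀ F, IsCyc G F → ∑ e ∈ F, γ e ∈ A → ∃ v ∈ H, On v F)

end ErdPos
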