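import Mathlib

/-! # Erdős–Pósa type engine and labelled cycles: definitions

Helper file for MP_45fa85_co. -/

namespace ErdPos

open Finset

section
variable {V : Type} [DecidableEq V]

/-- there is an edge between `A` and `B` -/
def AdjS (G : SimpleGraph V) (A B : Finset V) : Prop := ∃ a ∈ A, ∃ b ∈ B, G.Adj a b

/-- `A` is nonempty and induces a connected graph (no empty cut) -/
def Conn (G : SimpleGraph V) (A : Finset V) : Prop :=
  A.Nonempty ∧ ∀ B ⊆ A, B.Nonempty → B ≠ A → AdjS G B (A \ B)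

/-- `D` is a component of `X` -/
def IsComp (G : SimpleGraph V) (X D : Finset V) : Prop := D ⊆ X ∧ Conn G D ∧ ¬ AdjS G D (X \ D)

/-- `x` has a neighbour in `L` -/
def Ad (G : SimpleGraph V) (x : V) (L : Finset V) : Prop := ∃ y ∈ L, G.Adj x y

open Classical in
/-- neighbourhood of `U` inside `W` -/
noncomputable def Nb (G : SimpleGraph V) (W U : Finset V) : Finset V :=
  W.filter (fun v => v ∉ U ∧ Ad G v U)

/-- `S` contains a member of the family `F` -/
def Has (F : Finset V → Prop) (S : Finset V) : Prop := ∃ M, F M ∧ M ⊆ S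

/-- `k` members inside `W`, every vertex in at most four of them -/
def Pk (F : Finset V → Prop) (k : ℕ) (W : Finset V) : Prop :=
  ∃ M : Fin k → Finset V, (∀ i, F (M i) ∧ M i ⊆ W) ∧
    ∀ v, (univ.filter (fun i => v ∈ M i)).card ≤ 4

/-- at most `n` vertices meet all members inside `W` -/
def Ht (F : Finset V → Prop) (W : Finset V) (n : ℕ) : Prop :=
  ∃ Z : Finset V, Z.card ≤ n ∧ ∀ M, F M → M ⊆ W → ∃ v ∈ M, v ∈ Z

/-- `C` is the largest connected set in `W \ Z` containing a member -/
def IsBt (G : SimpleGraph V) (F : Finset V → Prop) (W Z C : Finset V) : Prop :=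
  C ⊆ W \ Z ∧ Conn G C ∧ Has F C ∧ ∀ D, D ⊆ W \ Z → Conn G D → Has F D → D ⊆ C

/-- haven of order `θ` -/
def Hav (G : SimpleGraph V) (F : Finset V → Prop) (W : Finset V) (θ : ℕ) : Prop :=
  ∀ Z : Finset V, Z.card ≤ θ → ∃ C, IsBt G F W Z C

open Classical in
/-- the set `β_W(Z)` -/
noncomputable def bt (G : SimpleGraph V) (F : Finset V → Prop) (W Z : Finset V) : Finset V :=
  if h : ∃ C, IsBt G F W Z C then h.choose else ∅

/-- connected sets in `W` containing a member -/
def Big (G : SimpleGraph V) (F : Finset V → Prop) (W C : Finset V) : Prop :=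
  C ⊆ W ∧ Conn G C ∧ Has F C

/-- the (truncated) rank -/
noncomputable def rk (G : SimpleGraph V) (F : Finset V → Prop) (W : Finset V) (q : ℕ)
    (X : Finset V) : ℕ :=
  sInf ({n | ∃ C, Big G F W C ∧ Disjoint C X ∧ (Nb G W C).card = n} ∪ {q})

/-- the closure -/
noncomputable def cl (G : SimpleGraph V) (F : Finset V → Prop) (W : Finset V) (q : ℕ)
    (X : Finset V) : Finset V :=
  W.filter (fun v => rk G F W q (insert v X) = rk G F W q X)

/-- the promise of a body `B` with roots `ρ` towards the region `R` -/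
def Prom (G : SimpleGraph V) (F : Finset V → Prop) (R B : Finset V) : List V → Prop
  | [] => Has F B
  | [a, b] => ∀ L, L ⊆ R → Conn G L → Ad G a L → Ad G b L → Has F (B ∪ L)
  | [a, b, c, d] => ∀ L L', L ⊆ R → L' ⊆ R → Disjoint L L' → Conn G L → Conn G L' →
      Ad G a L → Ad G b L' → ((Ad G c L ∧ Ad G d L') ∨ (Ad G d L ∧ Ad G c L')) →
      Has F (B ∪ (L ∪ L'))
  | _ => False

/-- closable pieces outside `C'` -/
def Clos (G : SimpleGraph V) (F : Finset V → Prop) (C C' : Finset V) : Prop :=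
  ∃ (K : Finset V) (ρ : List V), K ⊆ C \ C' ∧ ρ.Nodup ∧ (∀ x ∈ ρ, x ∈ K ∧ Ad G x C') ∧
    Prom G F C' K ρ

/-- the local hypothesis of the engine -/
def Loc (G : SimpleGraph V) (F : Finset V → Prop) (h : ℕ → ℕ) (x0 : ℕ) : Prop :=
  ∀ k C, Conn G C → ¬ Pk F k C → ¬ Ht F C (h k) → Hav G F C 10 →
    ∃ X, X ⊆ C ∧ X.card ≤ x0 ∧ ∀ C', C' ⊆ C \ X → Conn G C' → Has F C' → Clos G F C C'

/-- path with vertex set `S` and edge set `T` -/
def Pth (G : SimpleGraph V) (a b : V) (S : Finset V) (T : Finset (Sym2 V)) : Prop :=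
  ∃ p : G.Walk a b, p.IsPath ∧ p.support.toFinset = S ∧ p.edges.toFinset = T

/-- cycle with vertex set `S` and edge set `T` -/
def Cyc (G : SimpleGraph V) (S : Finset V) (T : Finset (Sym2 V)) : Prop :=
  ∃ (a : V) (p : G.Walk a a), p.IsCycle ∧ p.support.toFinset = S ∧ p.edges.toFinset = T

end

/-- the blow-up (strong product with an edge) -/
def BU {V : Type} (G : SimpleGraph V) : SimpleGraph (V × Bool) where
  Adj x y := G.Adj x.1 y.1 ∨ (x.1 = y.1 ∧ x.2 ≠ y.2)
  symm := by
    constructor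
    rintro x y (h | h)
    · exact Or.inl h.symm
    · exact Or.inr ⟨h.1.symm, h.2.symm⟩
  loopless := by
    constructor
    rintro x (h | h)
    · exact G.loopless.irrefl _ h
    · exact h.2 rfl

end ErdPos
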