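import Pool.Agent.Helper72.EP.Spec1
import Pool.Agent.Helper72.EP.Basic

/-! # Labelled graphs: definitions -/

namespace ErdPos

open Finset

section
variable {V : Type} [DecidableEq V]

lemma Pth.symm {G : SimpleGraph V} {a b : V} {S : Finset V} {T : Finset (Sym2 V)}
    (h : Pth G a b S T) : Pth G b a S T := by
  obtain ⟨p, hp, h1, h2⟩ := h
  refine ⟨p.reverse, hp.reverse, ?_, ?_⟩
  · rw [SimpleGraph.Walk.support_reverse, List.toFinset_reverse, h1]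
  · rw [SimpleGraph.Walk.edges_reverse, List.toFinset_reverse, h2]

/-- path calculus -/
structure PApi (G : SimpleGraph V) : Prop where
  refl : ∀ a, Pth G a a {a} ∅
  edge : ∀ a b, G.Adj a b → Pth G a b {a, b} {s(a, b)}
  ends : ∀ a b S T, Pth G a b S T → a ∈ S ∧ b ∈ S
  tmem : ∀ a b S T, Pth G a b S T → ∀ e ∈ T, ∃ x ∈ S, ∃ y ∈ S, G.Adj x y ∧ e = s(x, y)
  triv : ∀ a S T, Pth G a a S T → S = {a} ∧ T = ∅
  conn : ∀ a b S T, Pth G a b S T → Conn G S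
  card : ∀ a b S T, Pth G a b S T → T.card + 1 = S.card
  ofconn : ∀ L a b, Conn G L → a ∈ L → b ∈ L → ∃ S T, S ⊆ L ∧ Pth G a b S T
  concat : ∀ a b c S T S' T', Pth G a b S T → Pth G b c S' T' → S ∩ S' ⊆ {b} →
    Pth G a c (S ∪ S') (T ∪ T') ∧ Disjoint T T'
  split : ∀ a b x S T, Pth G a b S T → x ∈ S → ∃ S1 T1 S2 T2, Pth G a x S1 T1 ∧
    Pth G x b S2 T2 ∧ S1 ∩ S2 = {x} ∧ S1 ∪ S2 = S ∧ Disjoint T1 T2 ∧ T1 ∪ T2 = T
  step : ∀ a b S T, Pth G a b S T → a ≠ b → ∃ x S' T', G.Adj a x ∧ Pth G x b S' T' ∧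
    a ∉ S' ∧ S = insert a S' ∧ T = insert s(a, x) T' ∧ s(a, x) ∉ T'
  first : ∀ a b S T (Q : Finset V), Pth G a b S T → (S ∩ Q).Nonempty →
    ∃ x ∈ Q, ∃ S1 T1 S2 T2, Pth G a x S1 T1 ∧ Pth G x b S2 T2 ∧ S1 ∩ Q = {x} ∧
      S1 ∩ S2 = {x} ∧ S1 ∪ S2 = S ∧ Disjoint T1 T2 ∧ T1 ∪ T2 = T
  single : ∀ a b S T, Pth G a b S T → a ≠ b → (s(a, b) ∈ T ∨ S.card ≤ 2) →
    S = {a, b} ∧ T = {s(a, b)}
  transfer : ∀ (G' : SimpleGraph V) a b S T, Pth G a b S T → (∀ e ∈ T, e ∈ G'.edgeSet) →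
    Pth G' a b S T

/-- cycle calculus -/
structure CApi (G : SimpleGraph V) : Prop where
  mk2 : ∀ a b S T S' T', Pth G a b S T → Pth G a b S' T' → a ≠ b → S ∩ S' ⊆ {a, b} → T ≠ T' →
    Cyc G (S ∪ S') (T ∪ T') ∧ Disjoint T T'
  split : ∀ a b S T, Cyc G S T → a ∈ S → b ∈ S → a ≠ b → ∃ S1 T1 S2 T2, Pth G a b S1 T1 ∧
    Pth G a b S2 T2 ∧ S1 ∩ S2 = {a, b} ∧ S1 ∪ S2 = S ∧ Disjoint T1 T2 ∧ T1 ∪ T2 = T
  edge : ∀ a b S T, Cyc G S T → s(a, b) ∈ T → a ≠ b ∧ G.Adj a b ∧ a ∈ S ∧ b ∈ S ∧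
    Pth G a b S (T.erase s(a, b))
  tmem : ∀ S T, Cyc G S T → ∀ e ∈ T, ∃ x ∈ S, ∃ y ∈ S, G.Adj x y ∧ e = s(x, y)
  conn : ∀ S T, Cyc G S T → Conn G S
  erase : ∀ S T g, Cyc G S T → Conn G (S.erase g)
  card : ∀ S T, Cyc G S T → 3 ≤ S.card ∧ T.card = S.card
  deg : ∀ S T v, Cyc G S T → v ∈ S → (T.filter (fun e => v ∈ e)).card = 2
  transfer : ∀ (G' : SimpleGraph V) S T, Cyc G S T → (∀ e ∈ T, e ∈ G'.edgeSet) → Cyc G' S T

/-- the standing hypothesis for the local analysis inside `C` -/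
structure Ctx (G : SimpleGraph V) (F : Finset V → Prop) (C : Finset V) : Prop where
  conn : Conn G C
  hav : Hav G F C 10
  mem : ∀ M, F M → Conn G M

/-- robust vertices -/
def Rob (G : SimpleGraph V) (F : Finset V → Prop) (C : Finset V) (x : V) : Prop :=
  x ∈ C ∧ ∀ g ∈ C, g ≠ x → x ∈ bt G F C {g}

/-- hulls of edges between robust vertices -/
def Hul (G : SimpleGraph V) (F : Finset V → Prop) (C A : Finset V) : Prop :=
  ∃ a b, Rob G F C a ∧ Rob G F C b ∧ G.Adj a b ∧ A = cl G F C 5 {a, b}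

/-- attachments of a hull -/
noncomputable def Zt (G : SimpleGraph V) (C A : Finset V) : Finset V := Nb G C (C \ A)

/-- torso vertices -/
def TVx (G : SimpleGraph V) (F : Finset V → Prop) (C : Finset V) (x : V) : Prop :=
  ∃ A, Hul G F C A ∧ x ∈ Zt G C A

/-- `(S, T)` is a hull path of the hull `A` from `u` to `v` -/
def HP (G : SimpleGraph V) (F : Finset V → Prop) (C A : Finset V) (u v : V) (S : Finset V)
    (T : Finset (Sym2 V)) : Prop :=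
  Hul G F C A ∧ Zt G C A = {u, v} ∧ u ≠ v ∧ Pth G u v S T ∧ S ⊆ A

/-- a cycle of robust vertices in `C` which is not inside a hull -/
def GC (G : SimpleGraph V) (F : Finset V → Prop) (C : Finset V) (S : Finset V)
    (T : Finset (Sym2 V)) : Prop :=
  Cyc G S T ∧ S ⊆ C ∧ (∀ x ∈ S, Rob G F C x) ∧ ∀ A, Hul G F C A → ¬ S ⊆ A

/-- conclusion of the local lemmas -/
def LC (G : SimpleGraph V) (F : Finset V → Prop) (C : Finset V) : Prop :=
  ∃ X, X ⊆ C ∧ X.card ≤ 12 ∧ ∀ C', C' ⊆ C \ X → Conn G C' → Has F C' → Clos G F C C'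

end

section
variable {E X : Type}

open Classical in
/-- parity of the number of elements of `S` incident with `x` -/
noncomputable def par (inc : E → X → Prop) (S : Finset E) (x : X) : ZMod 2 :=
  ((S.filter (fun e => inc e x)).card : ZMod 2)

/-- even sets -/
def Evn (inc : E → X → Prop) (S : Finset E) : Prop := ∀ x, par inc S x = 0

/-- the abstract systems (S1)-(S3) -/
structure IsSys (inc : E → X → Prop) (𝒟 : Set (Finset E)) : Prop where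
  six : ∀ x, ∃ S : Finset E, S.card ≤ 6 ∧ ∀ e, inc e x ↔ e ∈ S
  evn : ∀ D ∈ 𝒟, Evn inc D
  ne : ∀ D ∈ 𝒟, D.Nonempty
  mini : ∀ D ∈ 𝒟, ∀ S ⊆ D, S.Nonempty → Evn inc S → S = D
  three : ∀ x, ∀ P : Finset (Finset E), (∀ D ∈ P, D ∈ 𝒟 ∧ ∃ e ∈ D, inc e x) → P.card ≤ 3

/-- 0/1 vectors with even support -/
def Es (inc : E → X → Prop) : Set (E →₀ ℤ) :=
  {g | (∀ e, g e = 0 ∨ g e = 1) ∧ Evn inc g.support}

/-- `g` is the indicator vector of `D` -/
def IsInd (D : Finset E) (g : E →₀ ℤ) : Prop := g.support = D ∧ ∀ e ∈ D, g e = 1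

/-- the set `A` of the construction -/
def AS (inc : E → X → Prop) (𝒟 : Set (Finset E)) : Set (E →₀ ℤ) :=
  {g | g ∉ Es inc ∨ ∃ D ∈ 𝒟, IsInd D g}

variable {V : Type} [DecidableEq V]

/-- value of an edge set -/
noncomputable def vl (γ : Sym2 V → E →₀ ℤ) (T : Finset (Sym2 V)) : E →₀ ℤ := ∑ e ∈ T, γ e

/-- vertex sets of cycles with value in `A` -/
def FA (G : SimpleGraph V) (γ : Sym2 V → E →₀ ℤ) (inc : E → X → Prop) (𝒟 : Set (Finset E)) :
    Finset V → Prop := fun M => ∃ T, Cyc G M T ∧ vl γ T ∈ AS inc 𝒟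

/-- consistent situation -/
structure Cons (G : SimpleGraph V) (γ : Sym2 V → E →₀ ℤ) (inc : E → X → Prop)
    (𝒟 : Set (Finset E)) (C : Finset V) : Prop where
  ctx : Ctx G (FA G γ inc 𝒟) C
  memR : ∀ M T, Cyc G M T → vl γ T ∈ AS inc 𝒟 → M ⊆ C → GC G (FA G γ inc 𝒟) C M T
  h01 : ∀ A u v S T, HP G (FA G γ inc 𝒟) C A u v S T → ∀ f, vl γ T f = 0 ∨ vl γ T f = 1
  disj : ∀ A u v S T A' u' v' S' T', HP G (FA G γ inc 𝒟) C A u v S T →
    HP G (FA G γ inc 𝒟) C A' u' v' S' T' → ∀ f, vl γ T f = 1 → vl γ T' f = 1 → A = A'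
  nowild : ∀ S T, Cyc G S T → S ⊆ C → vl γ T ∈ Es inc

/-- the labels carried by the hull with attachments `h` -/
def carH (G : SimpleGraph V) (F : Finset V → Prop) (C : Finset V) (γ : Sym2 V → E →₀ ℤ)
    (h : Sym2 V) : Set E :=
  {f | ∃ A u v S T, HP G F C A u v S T ∧ h = s(u, v) ∧ vl γ T f = 1}

open Classical in
/-- the torso graph of `D` -/
def TDg (G : SimpleGraph V) (F : Finset V → Prop) (C : Finset V) (γ : Sym2 V → E →₀ ℤ)
    (D : Finset E) : SimpleGraph V where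
  Adj u v := ∃ A S T, HP G F C A u v S T ∧
    ∀ f, vl γ T f = if f ∈ D ∧ f ∈ carH G F C γ s(u, v) then 1 else 0
  symm := by
    constructor
    rintro u v ⟨A, S, T, ⟨h1, h2, h3, h4, h5⟩, h6⟩
    refine ⟨A, S, T, ⟨h1, by rw [h2, Finset.pair_comm], h3.symm, h4.symm, h5⟩, ?_⟩
    rw [Sym2.eq_swap]
    exact h6
  loopless := by
    constructor
    rintro u ⟨A, S, T, ⟨_, _, h3, _, _⟩, _⟩
    exact h3 rfl

/-- the graph of the zero hulls -/
def ZZg (G : SimpleGraph V) (F : Finset V → Prop) (C : Finset V) (γ : Sym2 V → E →₀ ℤ) :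
    SimpleGraph V where
  Adj u v := ∃ A S T, HP G F C A u v S T ∧ vl γ T = 0
  symm := by
    constructor
    rintro u v ⟨A, S, T, ⟨h1, h2, h3, h4, h5⟩, h6⟩
    exact ⟨A, S, T, ⟨h1, by rw [h2, Finset.pair_comm], h3.symm, h4.symm, h5⟩, h6⟩
  loopless := by
    constructor
    rintro u ⟨A, S, T, ⟨_, _, h3, _, _⟩, _⟩
    exact h3 rfl

open Classical in
/-- torso systems -/
structure TSys {V E X : Type} (inc : E → X → Prop) (𝒟 : Set (Finset E))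
    (carry : Sym2 V → Set E) (TD : Finset E → SimpleGraph V) (ZZ : SimpleGraph V)
    (y : V → X → ZMod 2) : Prop where
  t1 : ∀ D ∈ 𝒟, ∀ u v, (TD D).Adj u v → (∀ f ∈ D, f ∉ carry s(u, v)) → ZZ.Adj u v
  t1' : ∀ D ∈ 𝒟, ∀ u v, ZZ.Adj u v → (∀ f ∈ D, f ∉ carry s(u, v)) → (TD D).Adj u v
  t2 : ∀ h h' f, f ∈ carry h → f ∈ carry h' → h = h'
  t3 : ∀ u v, ZZ.Adj u v → y u = y v
  t3' : ∀ D ∈ 𝒟, ∀ u v, (TD D).Adj u v →
    ∀ x, y u x + y v x = par inc (D.filter (fun f => f ∈ carry s(u, v))) x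

/-- `D`-cycles of a torso system -/
def DCyc {V E : Type} [DecidableEq V] (carry : Sym2 V → Set E) (TD : Finset E → SimpleGraph V)
    (D : Finset E) (S : Finset V) (T : Finset (Sym2 V)) : Prop :=
  Cyc (TD D) S T ∧ ∀ f ∈ D, ∃ h ∈ T, f ∈ carry h

open Classical in
/-- attachment vertices of `D` in `U` -/
noncomputable def att {V E : Type} (carry : Sym2 V → Set E) (D : Finset E) (U : Finset V) :
    Finset V := U.filter (fun w => ∃ h : Sym2 V, w ∈ h ∧ ∃ f ∈ D, f ∈ carry h)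

end

end ErdPos
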