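import Pool.Agent.Helper72.EP.Spec2

/-! # The concrete system -/

namespace ErdPos

open Finset

/-- the triples containing `i` -/
def pts (N : ℕ) (i : Fin N) : Finset (Finset (Fin N)) :=
  ((univ : Finset (Fin N)).powersetCard 3).filter (fun p => i ∈ p)

/-- the `j`-th triple containing `i` -/
noncomputable def pt (N : ℕ) (i : Fin N) (j : Fin (pts N i).card) : Finset (Fin N) :=
  ((pts N i).equivFin.symm j).1

/-- private vertices of the `N`-th block -/
abbrev Pv (N : ℕ) : Type := Σ i : Fin N, Fin (pts N i).card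

/-- vertices of the `N`-th block -/
abbrev Vx (N : ℕ) : Type := Finset (Fin N) ⊕ Pv N

/-- edges of the `N`-th block -/
abbrev Ed (N : ℕ) : Type := Pv N × Bool

/-- all edges -/
abbrev EE : Type := Σ N : ℕ, Ed N

/-- all vertices -/
abbrev XX : Type := Σ N : ℕ, Vx N

/-- the end of an edge at a triple -/
noncomputable def tend (N : ℕ) (e : Ed N) : Finset (Fin N) :=
  pt N e.1.1 (if e.2 then finRotate _ e.1.2 else e.1.2)

/-- incidence -/
def incc (e : EE) (x : XX) : Prop :=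
  x = ⟨e.1, Sum.inr e.2.1⟩ ∨ x = ⟨e.1, Sum.inl (tend e.1 e.2)⟩

/-- the `i`-th designated cycle of the `N`-th block -/
def Dd (N : ℕ) (i : Fin N) : Finset EE :=
  (univ.filter (fun e : Ed N => e.1.1 = i)).map ⟨fun e => ⟨N, e⟩, sigma_mk_injective⟩

/-- the designated cycles -/
def DD : Set (Finset EE) := {D | ∃ N i, 4 ≤ N ∧ D = Dd N i}

/-- the edge `e` as an edge of the graph -/
noncomputable def ed (N : ℕ) (e : Ed N) : Sym2 (Vx N) := s(Sum.inr e.1, Sum.inl (tend N e))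

/-- the `N`-th graph -/
def GN (N : ℕ) : SimpleGraph (Vx N) where
  Adj x y := ∃ e : Ed N, s(x, y) = ed N e
  symm := by
    constructor
    rintro x y ⟨e, h⟩
    exact ⟨e, by rw [Sym2.eq_swap]; exact h⟩
  loopless := by
    constructor
    rintro x ⟨e, h⟩
    unfold ed at h
    rw [Sym2.eq_iff] at h
    rcases h with ⟨h1, h2⟩ | ⟨h1, h2⟩
    · rw [h1] at h2; exact Sum.inr_ne_inl h2
    · rw [h1] at h2; exact Sum.inl_ne_inr h2

open Classical in
/-- the identity labelling -/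
noncomputable def lab (N : ℕ) (h : Sym2 (Vx N)) : EE →₀ ℤ :=
  ∑ e : Ed N, if ed N e = h then Finsupp.single (⟨N, e⟩ : EE) (1 : ℤ) else 0

/-- `F` is the edge set of the `i`-th designated cycle -/
def IsD (N : ℕ) (i : Fin N) (F : Finset (Sym2 (Vx N))) : Prop :=
  ∀ h, h ∈ F ↔ ∃ e : Ed N, e.1.1 = i ∧ h = ed N e

/-- CYCL: cycles from cyclic sequences -/
def ST_CYCL : Prop :=
  ∀ (V : Type) (G : SimpleGraph V) (n : ℕ), 3 ≤ n → ∀ c : ZMod n → V, Function.Injective c →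
    (∀ i, G.Adj (c i) (c (i + 1))) →
    ∃ F : Finset (Sym2 V), IsCyc G F ∧ ∀ e, e ∈ F ↔ ∃ i, e = s(c i, c (i + 1))

/-- SYS1: the concrete system satisfies (S1)-(S3) -/
def ST_SYS1 : Prop := IsSys incc DD

/-- NEG1: the designated cycles are cycles -/
def ST_NEG1 : Prop :=
  ∀ N, 4 ≤ N → ∀ i : Fin N, ∃ F : Finset (Sym2 (Vx N)), IsCyc (GN N) F ∧ IsD N i F

/-- NEG2: the `A`-cycles are exactly the designated cycles -/
def ST_NEG2 : Prop :=
  ∀ N, 4 ≤ N →
    (∀ F, IsCyc (GN N) F → ∑ h ∈ F, lab N h ∈ AS incc DD → ∃ i, IsD N i F) ∧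
    (∀ i F, IsD N i F → ∑ h ∈ F, lab N h ∈ AS incc DD)

/-- SYS: an example -/
def ST_SYS : Prop :=
  ∃ (E X : Type) (_ : Countable E) (inc : E → X → Prop) (𝒟 : Set (Finset E)),
    IsSys inc 𝒟 ∧ ¬ EP (E →₀ ℤ) (AS inc 𝒟) 3

/-- NEG3: `EP_3` fails -/
def ST_NEG3 : Prop := ¬ EP (EE →₀ ℤ) (AS incc DD) 3

end ErdPos
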