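import Pool.Agent.Helper72.EP.Basic

/-! Transport of the Erdős–Pósa property along an isomorphism of groups. -/

namespace ErdPos

open Finset

lemma EP.transport {Γ Γ' : Type} [AddCommGroup Γ] [AddCommGroup Γ'] (e : Γ ≃+ Γ') {A : Set Γ}
    {s : ℕ} (h : EP Γ A s) : EP Γ' (e '' A) s := by
  obtain ⟨f, hf⟩ := h
  refine ⟨f, fun V _ G γ k hk => ?_⟩
  have key : ∀ F : Finset (Sym2 V), ∑ x ∈ F, γ x ∈ e '' A ↔ ∑ x ∈ F, e.symm (γ x) ∈ A := by
    intro F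
    have h1 : ∑ x ∈ F, e.symm (γ x) = e.symm (∑ x ∈ F, γ x) := by
      rw [map_sum]
    rw [h1]
    constructor
    · rintro ⟨a, ha, h2⟩
      rw [← h2]
      simpa using ha
    · intro h2
      exact ⟨_, h2, by simp⟩
  rcases hf V G (fun x => e.symm (γ x)) k hk with ⟨P, h1, h2, h3⟩ | ⟨H, h1, h2⟩
  · left
    exact ⟨P, h1, fun F hF => ⟨(h2 F hF).1, (key F).2 (h2 F hF).2⟩, h3⟩
  · right
    exact ⟨H, h1, fun F hF hA => h2 F hF ((key F).1 hA)⟩

lemma EP.transport_iff {Γ Γ' : Type} [AddCommGroup Γ] [AddCommGroup Γ'] (e : Γ ≃+ Γ')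
    {A : Set Γ} {s : ℕ} : EP Γ' (e '' A) s ↔ EP Γ A s := by
  refine ⟨fun h => ?_, fun h => h.transport e⟩
  have h1 := h.transport e.symm
  have h2 : e.symm '' (e '' A) = A := by
    ext x
    simp
  rwa [h2] at h1

end ErdPos
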