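import Pool.Agent.Helper72.EP.ALL
import Pool.Agent.Helper72.EP.Transport
import Pool.Agent.Helper72.EP.Spec3

/-! Final assembly for MP_45fa85_co. -/

namespace ErdPos

open Finset

lemma exists_equiv_nat {E : Type} [Countable E] [Infinite E] : Nonempty (E ≃ ℕ) := by
  have := Encodable.ofCountable E
  have := Denumerable.ofEncodableOfInfinite E
  exact ⟨Denumerable.eqv E⟩

theorem final_of (h5 : ST_EP5) {E X : Type} [Countable E] [Infinite E] {inc : E → X → Prop}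
    {𝒟 : Set (Finset E)} (hs : IsSys inc 𝒟) (h3 : ¬ EP (E →₀ ℤ) (AS inc 𝒟) 3) :
    ∃ A : Set (ℕ →₀ ℤ), EP (ℕ →₀ ℤ) A 5 ∧ ¬ EP (ℕ →₀ ℤ) A 3 := by
  obtain ⟨e⟩ := exists_equiv_nat (E := E)
  let g : (E →₀ ℤ) ≃+ (ℕ →₀ ℤ) := Finsupp.domCongr e
  refine ⟨g '' AS inc 𝒟, (h5 E X inc 𝒟 hs).transport g, fun h => h3 ?_⟩
  exact (EP.transport_iff g).1 h

theorem final : ∃ A : Set (ℕ →₀ ℤ), EP (ℕ →₀ ℤ) A 5 ∧ ¬ EP (ℕ →₀ ℤ) A 3 := by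
  obtain ⟨E, X, hc, hi, inc, D, h1, h2⟩ := st_SYSinf All.a_CYCL
  exact final_of All.a_EP5 h1 h2

end ErdPos
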