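import Pool.Agent.Helper72.EP.Defs

/-! Connected vertex sets, components, havens: basic lemmas. -/

namespace ErdPos

open Finset

section
variable {V : Type} [DecidableEq V] {G : SimpleGraph V}

omit [DecidableEq V] in
lemma AdjS.symm {A B : Finset V} (h : AdjS G A B) : AdjS G B A := by
  obtain ⟨a, ha, b, hb, hab⟩ := h
  exact ⟨b, hb, a, ha, hab.symm⟩

omit [DecidableEq V] in
lemma AdjS.mono {A B A' B' : Finset V} (h : AdjS G A B) (hA : A ⊆ A') (hB : B ⊆ B') :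
    AdjS G A' B' := by
  obtain ⟨a, ha, b, hb, hab⟩ := h
  exact ⟨a, hA ha, b, hB hb, hab⟩

omit [DecidableEq V] in
lemma adjS_of {A B : Finset V} {a b : V} (ha : a ∈ A) (hb : b ∈ B) (h : G.Adj a b) :
    AdjS G A B := ⟨a, ha, b, hb, h⟩

lemma conn_singleton (a : V) : Conn G {a} := by
  refine ⟨singleton_nonempty a, fun B hB hne h => ?_⟩
  rcases subset_singleton_iff.1 hB with h1 | h1
  · exact absurd h1 hne.ne_empty
  · exact absurd h1 h

/-- the union of two connected sets which touch -/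
lemma Conn.union {A B : Finset V} (hA : Conn G A) (hB : Conn G B)
    (h : AdjS G A B ∨ (A ∩ B).Nonempty) : Conn G (A ∪ B) := by
  refine ⟨hA.1.mono subset_union_left, fun C hC hne hCne => ?_⟩
  by_cases h1 : (C ∩ A).Nonempty ∧ C ∩ A ≠ A
  · obtain ⟨a, ha, b, hb, hab⟩ := hA.2 (C ∩ A) inter_subset_right h1.1 h1.2
    refine ⟨a, (mem_inter.1 ha).1, b, ?_, hab⟩
    rw [mem_sdiff, mem_inter] at hb
    exact mem_sdiff.2 ⟨mem_union_left _ hb.1, fun h => hb.2 ⟨h, hb.1⟩⟩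
  by_cases h2 : (C ∩ B).Nonempty ∧ C ∩ B ≠ B
  · obtain ⟨a, ha, b, hb, hab⟩ := hB.2 (C ∩ B) inter_subset_right h2.1 h2.2
    refine ⟨a, (mem_inter.1 ha).1, b, ?_, hab⟩
    rw [mem_sdiff, mem_inter] at hb
    exact mem_sdiff.2 ⟨mem_union_right _ hb.1, fun h => hb.2 ⟨h, hb.1⟩⟩
  have h1' : C ∩ A = ∅ ∨ A ⊆ C := by
    by_contra hh
    push Not at hh
    refine h1 ⟨hh.1, fun h => hh.2 ?_⟩
    rw [← h]; exact inter_subset_left
  have h2' : C ∩ B = ∅ ∨ B ⊆ C := by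
    by_contra hh
    push Not at hh
    refine h2 ⟨hh.1, fun h => hh.2 ?_⟩
    rw [← h]; exact inter_subset_left
  have key : ∀ {A B : Finset V}, C ∩ A = ∅ → B ⊆ C → C ⊆ A ∪ B →
      (AdjS G A B ∨ (A ∩ B).Nonempty) → AdjS G C ((A ∪ B) \ C) := by
    intro A B hCA hBC _ hor
    rcases hor with ⟨a, ha, b, hb, hab⟩ | ⟨x, hx⟩
    · refine ⟨b, hBC hb, a, mem_sdiff.2 ⟨mem_union_left _ ha, fun haC => ?_⟩, hab.symm⟩
      have : a ∈ C ∩ A := mem_inter.2 ⟨haC, ha⟩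
      rw [hCA] at this
      exact absurd this (notMem_empty _)
    · have : x ∈ C ∩ A := mem_inter.2 ⟨hBC (mem_inter.1 hx).2, (mem_inter.1 hx).1⟩
      rw [hCA] at this
      exact absurd this (notMem_empty _)
  rcases h1' with h1' | h1' <;> rcases h2' with h2' | h2'
  · obtain ⟨x, hx⟩ := hne
    rcases mem_union.1 (hC hx) with hxA | hxB
    · have : x ∈ C ∩ A := mem_inter.2 ⟨hx, hxA⟩
      rw [h1'] at this
      exact absurd this (notMem_empty _)
    · have : x ∈ C ∩ B := mem_inter.2 ⟨hx, hxB⟩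
      rw [h2'] at this
      exact absurd this (notMem_empty _)
  · exact key h1' h2' hC h
  · have := key (A := B) (B := A) h2' h1' (by rwa [union_comm]) (by
      rcases h with h | h
      · exact Or.inl h.symm
      · right; rwa [inter_comm])
    rwa [union_comm] at this
  · exact absurd (subset_antisymm hC (union_subset h1' h2')) hCne

lemma Conn.insert {A : Finset V} (hA : Conn G A) {a b : V} (ha : a ∈ A) (hab : G.Adj a b) :
    Conn G (insert b A) := by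
  have := hA.union (conn_singleton (G := G) b) (Or.inl ⟨a, ha, b, mem_singleton_self b, hab⟩)
  rwa [union_comm, ← insert_eq] at this

lemma IsComp.subset {X D : Finset V} (h : IsComp G X D) : D ⊆ X := h.1
lemma IsComp.conn {X D : Finset V} (h : IsComp G X D) : Conn G D := h.2.1
lemma IsComp.nonempty {X D : Finset V} (h : IsComp G X D) : D.Nonempty := h.2.1.1

/-- a neighbour in `X` of a vertex of the component is in the component -/
lemma IsComp.mem_of_adj {X D : Finset V} (h : IsComp G X D) {d v : V} (hd : d ∈ D) (hv : v ∈ X)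
    (hdv : G.Adj d v) : v ∈ D := by
  by_contra hvD
  exact h.2.2 ⟨d, hd, v, mem_sdiff.2 ⟨hv, hvD⟩, hdv⟩

/-- a connected subset of `X` which meets the component is inside -/
lemma IsComp.subset_of {X D E : Finset V} (h : IsComp G X D) (hE : Conn G E) (hEX : E ⊆ X)
    (hne : (E ∩ D).Nonempty) : E ⊆ D := by
  by_contra hED
  obtain ⟨a, ha, b, hb, hab⟩ := hE.2 (E ∩ D) inter_subset_left hne (fun h => hED (by
    rw [← h]; exact inter_subset_right))
  rw [mem_sdiff, mem_inter] at hb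
  exact hb.2 ⟨hb.1, h.mem_of_adj (mem_inter.1 ha).2 (hEX hb.1) hab⟩

lemma IsComp.subset_of_mem {X D E : Finset V} (h : IsComp G X D) (hE : Conn G E) (hEX : E ⊆ X)
    {x : V} (hx : x ∈ E) (hxD : x ∈ D) : E ⊆ D :=
  h.subset_of hE hEX ⟨x, mem_inter.2 ⟨hx, hxD⟩⟩

lemma exists_comp {X : Finset V} {x : V} (hx : x ∈ X) : ∃ D, IsComp G X D ∧ x ∈ D := by
  classical
  let F := X.powerset.filter (fun D => Conn G D ∧ x ∈ D)
  have hF : F.Nonempty := ⟨{x}, mem_filter.2 ⟨mem_powerset.2 (singleton_subset_iff.2 hx),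
    conn_singleton x, mem_singleton_self x⟩⟩
  obtain ⟨D, hD, hmax⟩ := exists_max_image F card hF
  have hD' := mem_filter.1 hD
  refine ⟨D, ⟨mem_powerset.1 hD'.1, hD'.2.1, ?_⟩, hD'.2.2⟩
  rintro ⟨a, ha, b, hb, hab⟩
  have hb' := mem_sdiff.1 hb
  have := hmax (insert b D) (mem_filter.2 ⟨mem_powerset.2 (insert_subset hb'.1
    (mem_powerset.1 hD'.1)), hD'.2.1.insert ha hab, mem_insert_of_mem hD'.2.2⟩)
  rw [card_insert_of_notMem hb'.2] at this
  omega

lemma IsComp.eq_of_mem {X D E : Finset V} (hD : IsComp G X D) (hE : IsComp G X E) {x : V}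
    (hxD : x ∈ D) (hxE : x ∈ E) : D = E :=
  subset_antisymm (hE.subset_of_mem hD.conn hD.subset hxD hxE)
    (hD.subset_of_mem hE.conn hE.subset hxE hxD)

lemma IsComp.eq_or_disjoint {X D E : Finset V} (hD : IsComp G X D) (hE : IsComp G X E) :
    D = E ∨ Disjoint D E := by
  by_cases h : Disjoint D E
  · exact Or.inr h
  · rw [not_disjoint_iff] at h
    obtain ⟨x, hx, hx'⟩ := h
    exact Or.inl (hD.eq_of_mem hE hx hx')

lemma Conn.isComp {X : Finset V} (h : Conn G X) : IsComp G X X := by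
  refine ⟨subset_rfl, h, ?_⟩
  rintro ⟨a, _, b, hb, _⟩
  simp at hb

lemma IsComp.eq_of_conn {X D : Finset V} (h : IsComp G X D) (hX : Conn G X) : D = X := by
  obtain ⟨x, hx⟩ := h.nonempty
  exact h.eq_of_mem hX.isComp hx (h.subset hx)

/-- if all components contain `y` then the set is connected -/
lemma conn_of_comp_mem {X : Finset V} {y : V} (hne : X.Nonempty)
    (h : ∀ D, IsComp G X D → y ∈ D) : Conn G X := by
  obtain ⟨x, hx⟩ := hne
  obtain ⟨D, hD, hxD⟩ := exists_comp (G := G) hx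
  have hyD := h D hD
  have : D = X := by
    refine subset_antisymm hD.subset (fun v hv => ?_)
    obtain ⟨E, hE, hvE⟩ := exists_comp (G := G) hv
    rwa [hD.eq_of_mem hE hyD (h E hE)]
  rw [← this]
  exact hD.conn

/-- (T1) a hanging piece can be removed -/
lemma conn_sdiff_hang {X D : Finset V} {z : V} (hX : Conn G X) (hDX : D ⊆ X) (hz : z ∈ X)
    (hzD : z ∉ D) (h : ∀ d ∈ D, ∀ v ∈ X, v ∉ D → G.Adj d v → v = z) : Conn G (X \ D) := by
  refine ⟨⟨z, mem_sdiff.2 ⟨hz, hzD⟩⟩, fun B hB hne hBne => ?_⟩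
  by_cases hzB : z ∈ B
  · have h1 : B ∪ D ≠ X := by
      intro he
      apply hBne
      refine subset_antisymm hB (fun v hv => ?_)
      rw [mem_sdiff] at hv
      have : v ∈ B ∪ D := by rw [he]; exact hv.1
      rcases mem_union.1 this with h | h
      · exact h
      · exact absurd h hv.2
    obtain ⟨a, ha, b, hb, hab⟩ := hX.2 (B ∪ D)
      (union_subset (hB.trans sdiff_subset) hDX) (hne.mono subset_union_left) h1
    rw [mem_sdiff, mem_union, not_or] at hb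
    rcases mem_union.1 ha with ha | ha
    · exact ⟨a, ha, b, mem_sdiff.2 ⟨mem_sdiff.2 ⟨hb.1, hb.2.2⟩, hb.2.1⟩, hab⟩
    · have := h a ha b hb.1 hb.2.2 hab
      rw [this] at hb
      exact absurd hzB hb.2.1
  · have h1 : B ≠ X := by
      rintro rfl
      exact hzB hz
    obtain ⟨a, ha, b, hb, hab⟩ := hX.2 B (hB.trans sdiff_subset) hne h1
    rw [mem_sdiff] at hb
    have haX := mem_sdiff.1 (hB ha)
    refine ⟨a, ha, b, mem_sdiff.2 ⟨mem_sdiff.2 ⟨hb.1, fun hbD => ?_⟩, hb.2⟩, hab⟩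
    have := h b hbD a haX.1 haX.2 hab.symm
    rw [this] at ha
    exact hzB ha

/-- the neighbours in `X` of a component of `X.erase z` -/
lemma IsComp.eq_of_adj_erase {X D : Finset V} {z : V} (h : IsComp G (X.erase z) D) {d v : V}
    (hd : d ∈ D) (hv : v ∈ X) (hvD : v ∉ D) (hdv : G.Adj d v) : v = z := by
  by_contra hne
  exact hvD (h.mem_of_adj hd (mem_erase.2 ⟨hne, hv⟩) hdv)

lemma IsComp.notMem_erase {X D : Finset V} {z : V} (h : IsComp G (X.erase z) D) : z ∉ D :=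
  fun hz => (mem_erase.1 (h.subset hz)).1 rfl

lemma IsComp.subset_erase {X D : Finset V} {z : V} (h : IsComp G (X.erase z) D) : D ⊆ X :=
  h.subset.trans (erase_subset _ _)

/-- a component of `X.erase z` is adjacent to `z` -/
lemma IsComp.adj_erase {X D : Finset V} {z : V} (hX : Conn G X) (hz : z ∈ X)
    (h : IsComp G (X.erase z) D) : ∃ d ∈ D, G.Adj d z := by
  obtain ⟨a, ha, b, hb, hab⟩ := hX.2 D h.subset_erase h.nonempty
    (fun he => h.notMem_erase (he ▸ hz))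
  rw [mem_sdiff] at hb
  have := h.eq_of_adj_erase ha hb.1 hb.2 hab
  exact ⟨a, ha, this ▸ hab⟩

/-- the rest of a connected set after removing a component of `X.erase z` -/
lemma IsComp.conn_sdiff {X D : Finset V} {z : V} (hX : Conn G X) (hz : z ∈ X)
    (h : IsComp G (X.erase z) D) : Conn G (X \ D) :=
  conn_sdiff_hang hX h.subset_erase hz h.notMem_erase
    (fun _ hd _ hv hvD hdv => h.eq_of_adj_erase hd hv hvD hdv)

/-- `X` is connected if `A ⊆ X` is connected and every component of the rest touches `A` -/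
lemma conn_of_attach {X A : Finset V} (hA : Conn G A) (hAX : A ⊆ X)
    (h : ∀ E, IsComp G (X \ A) E → AdjS G E A) : Conn G X := by
  obtain ⟨a, ha⟩ := hA.1
  refine conn_of_comp_mem (y := a) ⟨a, hAX ha⟩ (fun D hD => ?_)
  obtain ⟨x, hx⟩ := hD.nonempty
  by_cases hxA : x ∈ A
  · exact hD.subset_of_mem hA hAX hxA hx ha
  · obtain ⟨E, hE, hxE⟩ := exists_comp (G := G) (mem_sdiff.2 ⟨hD.subset hx, hxA⟩)
    have h1 : Conn G (E ∪ A) := hE.conn.union hA (Or.inl (h E hE))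
    have h2 : E ∪ A ⊆ X := union_subset (hE.subset.trans sdiff_subset) hAX
    exact hD.subset_of_mem h1 h2 (mem_union_left _ hxE) hx (mem_union_right _ ha)

/-- `A ∪ E` is connected for components `E` -/
lemma conn_sdiff_of_comps {S K M' : Finset V} (hM : Conn G M') (hMS : M' ⊆ S \ K)
    (h : ∀ E, IsComp G ((S \ K) \ M') E → AdjS G E M') : Conn G (S \ K) :=
  conn_of_attach hM hMS h

omit [DecidableEq V] in
lemma Ad.mono {x : V} {L L' : Finset V} (h : Ad G x L) (hL : L ⊆ L') : Ad G x L' := by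
  obtain ⟨y, hy, hxy⟩ := h
  exact ⟨y, hL hy, hxy⟩

omit [DecidableEq V] in
lemma Ad.adjS {x : V} {L B : Finset V} (h : Ad G x L) (hx : x ∈ B) : AdjS G B L := by
  obtain ⟨y, hy, hxy⟩ := h
  exact ⟨x, hx, y, hy, hxy⟩

omit [DecidableEq V] in
lemma AdjS.exists_ad {A B : Finset V} (h : AdjS G A B) : ∃ a ∈ A, Ad G a B := by
  obtain ⟨a, ha, b, hb, hab⟩ := h
  exact ⟨a, ha, b, hb, hab⟩

lemma mem_Nb {W U : Finset V} {v : V} : v ∈ Nb G W U ↔ v ∈ W ∧ v ∉ U ∧ Ad G v U := by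
  classical
  unfold Nb
  exact mem_filter

lemma Nb_subset {W U : Finset V} : Nb G W U ⊆ W := fun _ h => (mem_Nb.1 h).1

lemma Nb_disj {W U : Finset V} : Disjoint (Nb G W U) U := by
  rw [Finset.disjoint_left]
  exact fun v h => (mem_Nb.1 h).2.1

omit [DecidableEq V] in
lemma Has.mono {F : Finset V → Prop} {S S' : Finset V} (h : Has F S) (hS : S ⊆ S') : Has F S' := by
  obtain ⟨M, hM, hMS⟩ := h
  exact ⟨M, hM, hMS.trans hS⟩

/-- connected sets which meet -/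
lemma Conn.union_of_mem {A B : Finset V} (hA : Conn G A) (hB : Conn G B) {x : V} (h1 : x ∈ A)
    (h2 : x ∈ B) : Conn G (A ∪ B) := hA.union hB (Or.inr ⟨x, mem_inter.2 ⟨h1, h2⟩⟩)

lemma Conn.union_of_ad {A B : Finset V} (hA : Conn G A) (hB : Conn G B) {x : V} (h1 : x ∈ A)
    (h2 : Ad G x B) : Conn G (A ∪ B) := hA.union hB (Or.inl (h2.adjS h1))

/-- a connected set contains, for two different elements, a connected set without the first one,
adjacent to it, containing the second one -/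
lemma link1 {L : Finset V} (hL : Conn G L) {a b : V} (ha : a ∈ L) (hb : b ∈ L) (hab : a ≠ b) :
    ∃ L', L' ⊆ L.erase a ∧ Conn G L' ∧ b ∈ L' ∧ Ad G a L' := by
  obtain ⟨D, hD, hbD⟩ := exists_comp (G := G) (mem_erase.2 ⟨hab.symm, hb⟩ : b ∈ L.erase a)
  obtain ⟨d, hd, hda⟩ := hD.adj_erase hL ha
  exact ⟨D, hD.subset, hD.conn, hbD, d, hd, hda.symm⟩

lemma link2 {L : Finset V} (hL : Conn G L) {a b : V} (ha : a ∈ L) (hb : b ∈ L) (hab : a ≠ b)
    (hn : ¬ G.Adj a b) :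
    ∃ L', L' ⊆ L ∧ a ∉ L' ∧ b ∉ L' ∧ Conn G L' ∧ Ad G a L' ∧ Ad G b L' := by
  obtain ⟨L1, h1, h2, h3, w, hw, haw⟩ := link1 hL ha hb hab
  have hwb : b ≠ w := by
    rintro rfl
    exact hn haw
  obtain ⟨L2, g1, g2, g3, g4⟩ := link1 h2 h3 hw hwb
  refine ⟨L2, (g1.trans (erase_subset _ _)).trans (h1.trans (erase_subset _ _)), fun h => ?_,
    fun h => ?_, g2, ⟨w, g3, haw⟩, g4⟩
  · exact (mem_erase.1 (h1 (mem_erase.1 (g1 h)).2)).1 rfl
  · exact (mem_erase.1 (g1 h)).1 rfl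

/-- legs -/
lemma legs {M C' : Finset V} (hM : Conn G M) {u p : V} (hu : u ∈ M) (hp : p ∈ M) (hu' : u ∉ C')
    (hp' : p ∉ C') :
    (∃ N, N ⊆ M \ C' ∧ Conn G N ∧ u ∈ N ∧ p ∈ N) ∨
    (∃ a b, a ⊆ M \ C' ∧ b ⊆ M \ C' ∧ Disjoint a b ∧ Conn G a ∧ Conn G b ∧ u ∈ a ∧ p ∈ b ∧
      ∃ x ∈ a, ∃ x' ∈ b, Ad G x C' ∧ Ad G x' C') := by
  obtain ⟨D, hD, huD⟩ := exists_comp (G := G) (mem_sdiff.2 ⟨hu, hu'⟩ : u ∈ M \ C')
  obtain ⟨E, hE, hpE⟩ := exists_comp (G := G) (mem_sdiff.2 ⟨hp, hp'⟩ : p ∈ M \ C')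
  by_cases h : p ∈ D
  · exact Or.inl ⟨D, hD.subset, hD.conn, huD, h⟩
  · right
    have hdis : Disjoint D E := by
      rcases hD.eq_or_disjoint hE with h1 | h1
      · exact absurd (h1 ▸ hpE) h
      · exact h1
    have key : ∀ {D : Finset V}, IsComp G (M \ C') D → D ≠ M → ∃ x ∈ D, Ad G x C' := by
      intro D hD hne
      obtain ⟨x, hx, y, hy, hxy⟩ := hM.2 D (hD.subset.trans sdiff_subset) hD.nonempty hne
      rw [mem_sdiff] at hy
      refine ⟨x, hx, y, ?_, hxy⟩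
      by_contra hyC
      exact hy.2 (hD.mem_of_adj hx (mem_sdiff.2 ⟨hy.1, hyC⟩) hxy)
    obtain ⟨x, hx, hxC⟩ := key hD (fun he => h (he ▸ hp))
    obtain ⟨x', hx', hxC'⟩ := key hE (fun he => by
      have hu2 : u ∈ E := he ▸ hu
      exact (Finset.disjoint_left.1 hdis) huD hu2)
    exact ⟨D, E, hD.subset, hE.subset, hdis, hD.conn, hE.conn, huD, hpE, x, hx, x', hx', hxC, hxC'⟩

/-! ### havens -/

variable {F : Finset V → Prop}

lemma IsBt.unique {W Z C D : Finset V} (h : IsBt G F W Z C) (h' : IsBt G F W Z D) : C = D :=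
  subset_antisymm (h'.2.2.2 C h.1 h.2.1 h.2.2.1) (h.2.2.2 D h'.1 h'.2.1 h'.2.2.1)

lemma IsBt.eq_bt {W Z C : Finset V} (h : IsBt G F W Z C) : bt G F W Z = C := by
  have hex : ∃ C, IsBt G F W Z C := ⟨C, h⟩
  unfold bt
  rw [dif_pos hex]
  exact hex.choose_spec.unique h

lemma Hav.isBt {W Z : Finset V} {θ : ℕ} (h : Hav G F W θ) (hZ : Z.card ≤ θ) :
    IsBt G F W Z (bt G F W Z) := by
  obtain ⟨C, hC⟩ := h Z hZ
  rw [hC.eq_bt]
  exact hC

lemma Hav.mono {W : Finset V} {θ θ' : ℕ} (h : Hav G F W θ) (hθ : θ' ≤ θ) : Hav G F W θ' :=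
  fun Z hZ => h Z (hZ.trans hθ)

/-- a connected set meeting `β(Z)` is inside -/
lemma IsBt.subset_of_mem {W Z C S : Finset V} (h : IsBt G F W Z C) (hS : Conn G S)
    (hSW : S ⊆ W \ Z) {x : V} (hx : x ∈ S) (hxC : x ∈ C) : S ⊆ C := by
  have h1 : C ∪ S ⊆ C := h.2.2.2 (C ∪ S) (union_subset h.1 hSW) (h.2.1.union_of_mem hS hxC hx)
    (h.2.2.1.mono subset_union_left)
  exact subset_union_right.trans h1

lemma IsBt.mem_of_adj {W Z C : Finset V} (h : IsBt G F W Z C) {x y : V} (hx : x ∈ C)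
    (hy : y ∈ W) (hyZ : y ∉ Z) (hxy : G.Adj x y) : y ∈ C := by
  have h1 : Conn G (insert y C) := h.2.1.insert hx hxy
  have h2 : insert y C ⊆ W \ Z := insert_subset (mem_sdiff.2 ⟨hy, hyZ⟩) h.1
  exact h.2.2.2 _ h2 h1 (h.2.2.1.mono (subset_insert _ _)) (mem_insert_self _ _)

lemma IsBt.Nb_subset {W Z C : Finset V} (h : IsBt G F W Z C) : Nb G W C ⊆ Z := by
  intro v hv
  rw [mem_Nb] at hv
  obtain ⟨hvW, hvC, y, hy, hvy⟩ := hv
  by_contra hvZ
  exact hvC (h.mem_of_adj hy hvW hvZ hvy.symm)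

lemma IsBt.big {W Z C : Finset V} (h : IsBt G F W Z C) : Big G F W C :=
  ⟨h.1.trans sdiff_subset, h.2.1, h.2.2.1⟩

/-- a big set with small neighbourhood is `β` of its neighbourhood -/
lemma Big.isBt {W C : Finset V} {θ : ℕ} (hW : Hav G F W θ) (hC : Big G F W C)
    (hN : (Nb G W C).card ≤ θ) : IsBt G F W (Nb G W C) C := by
  have hb := hW.isBt hN
  have h1 : C ⊆ W \ Nb G W C := fun v hv =>
    mem_sdiff.2 ⟨hC.1 hv, fun h => (mem_Nb.1 h).2.1 hv⟩
  have h2 := hb.2.2.2 C h1 hC.2.1 hC.2.2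
  have h3 : bt G F W (Nb G W C) ⊆ C := by
    by_contra hn
    have hne : C ≠ bt G F W (Nb G W C) := fun h => hn (h ▸ subset_rfl)
    obtain ⟨x, hx, y, hy, hxy⟩ := hb.2.1.2 C h2 hC.2.1.1 hne
    rw [mem_sdiff] at hy
    have hyW := mem_sdiff.1 (hb.1 hy.1)
    exact hyW.2 (mem_Nb.2 ⟨hyW.1, hy.2, x, hx, hxy.symm⟩)
  have h4 : bt G F W (Nb G W C) = C := subset_antisymm h3 h2
  rw [h4] at hb
  exact hb

lemma bt_anti {W Z Z' : Finset V} {θ : ℕ} (hW : Hav G F W θ) (hZ : Z ⊆ Z') (hZ' : Z'.card ≤ θ) :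
    bt G F W Z' ⊆ bt G F W Z := by
  have h1 := hW.isBt hZ'
  have h2 := hW.isBt ((card_le_card hZ).trans hZ')
  exact h2.2.2.2 _ (h1.1.trans (sdiff_subset_sdiff subset_rfl hZ)) h1.2.1 h1.2.2.1

/-- a big set avoiding `Z` is contained in `β(Z)` -/
lemma Big.subset_bt {W C Z : Finset V} {θ : ℕ} (hW : Hav G F W θ) (hC : Big G F W C)
    (hZ : Z.card ≤ θ) (hd : Disjoint C Z) : C ⊆ bt G F W Z :=
  (hW.isBt hZ).2.2.2 C (fun v hv => mem_sdiff.2 ⟨hC.1 hv, Finset.disjoint_left.1 hd hv⟩) hC.2.1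
    hC.2.2

omit [DecidableEq V] in
lemma Ht.mono {W W' : Finset V} {n m : ℕ} (h : Ht F W n) (hW : W' ⊆ W) (hn : n ≤ m) :
    Ht F W' m := by
  obtain ⟨Z, hZ, h⟩ := h
  exact ⟨Z, hZ.trans hn, fun M hM hMW => h M hM (hMW.trans hW)⟩

lemma Pk.mono {W W' : Finset V} {k : ℕ} (h : Pk F k W) (hW : W ⊆ W') : Pk F k W' := by
  obtain ⟨M, hM, h⟩ := h
  exact ⟨M, fun i => ⟨(hM i).1, (hM i).2.trans hW⟩, h⟩

/-- hitting numbers inside `β(Z)` -/
lemma ht_of_bt (hF : ∀ M, F M → Conn G M) {W Z : Finset V} {θ n : ℕ} (hW : Hav G F W θ)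
    (hZ : Z.card ≤ θ) (h : Ht F (bt G F W Z) n) : Ht F W (n + Z.card) := by
  obtain ⟨Y, hY, h⟩ := h
  refine ⟨Y ∪ Z, (card_union_le _ _).trans (Nat.add_le_add_right hY _), fun M hM hMW => ?_⟩
  by_cases hMZ : Disjoint M Z
  · have h1 : M ⊆ bt G F W Z := (hW.isBt hZ).2.2.2 M
      (fun _ hv => mem_sdiff.2 ⟨hMW hv, Finset.disjoint_left.1 hMZ hv⟩) (hF M hM)
      ⟨M, hM, subset_rfl⟩
    obtain ⟨v, hv, hvY⟩ := h M hM h1
    exact ⟨v, hv, mem_union_left _ hvY⟩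
  · rw [Finset.not_disjoint_iff] at hMZ
    obtain ⟨v, hv, hvZ⟩ := hMZ
    exact ⟨v, hv, mem_union_right _ hvZ⟩

end

end ErdPos
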