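import Pool.Agent.Helper72.EP.Lib

/-! # Engine: module statements -/

namespace ErdPos

open Finset

/-- MENW: Menger's theorem inside `W`, cut form, for connected sets -/
def ST_MENW : Prop :=
  ∀ (V : Type) [Fintype V] [DecidableEq V] (G : SimpleGraph V) (W A B : Finset V) (k : ℕ),
    A ⊆ W → B ⊆ W →
    (∀ U, U ⊆ W → Disjoint U B → k ≤ (Nb G W U ∪ (A \ U)).card) →
    ∃ L : Fin k → Finset V,
      (∀ i, L i ⊆ W ∧ Conn G (L i) ∧ (L i ∩ A).Nonempty ∧ (L i ∩ B).Nonempty) ∧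
      ∀ i j, i ≠ j → Disjoint (L i) (L j)

/-- HAV: the haven of a minimal counterexample -/
def ST_HAV : Prop :=
  ∀ (V : Type) [Fintype V] [DecidableEq V] (G : SimpleGraph V) (F : Finset V → Prop),
    (∀ M, F M → Conn G M) → ∀ (N k θ : ℕ) (W : Finset V),
    (∀ W', Pk F k W' ∨ Ht F W' N) → ¬ Pk F (k + 1) W → ¬ Ht F W (θ + 2 * N) → Hav G F W θ

/-- RK1: the rank function: bounds, monotonicity, submodularity -/
def ST_RK1 : Prop :=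
  ∀ (V : Type) [Fintype V] [DecidableEq V] (G : SimpleGraph V) (F : Finset V → Prop)
    (W : Finset V) (q : ℕ), Hav G F W (2 * q) →
    (∀ X, rk G F W q X ≤ q) ∧
    (∀ X, rk G F W q X ≤ X.card) ∧
    (∀ X Y, X ⊆ Y → rk G F W q X ≤ rk G F W q Y) ∧
    (∀ X v, rk G F W q (insert v X) ≤ rk G F W q X + 1) ∧
    (∀ X Y, rk G F W q (X ∪ Y) + rk G F W q (X ∩ Y) ≤ rk G F W q X + rk G F W q Y) ∧
    (∀ X C, Big G F W C → Disjoint C X → rk G F W q X ≤ (Nb G W C).card) ∧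
    (∀ X, rk G F W q X < q → ∃ C, Big G F W C ∧ Disjoint C X ∧
      (Nb G W C).card = rk G F W q X)

/-- RK2: the closure operator -/
def ST_RK2 : Prop :=
  ∀ (V : Type) [Fintype V] [DecidableEq V] (G : SimpleGraph V) (F : Finset V → Prop)
    (W : Finset V) (q : ℕ), Hav G F W (2 * q) → ∀ X, X ⊆ W → rk G F W q X < q →
    X ⊆ cl G F W q X ∧
    rk G F W q (cl G F W q X) = rk G F W q X ∧
    cl G F W q (cl G F W q X) = cl G F W q X ∧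
    Big G F W (W \ cl G F W q X) ∧
    (Nb G W (W \ cl G F W q X)).card = rk G F W q X ∧
    Nb G W (W \ cl G F W q X) ⊆ cl G F W q X ∧
    rk G F W q (Nb G W (W \ cl G F W q X)) = rk G F W q X ∧
    (∀ D, Big G F W D → Disjoint D X → (Nb G W D).card = rk G F W q X →
      W \ cl G F W q X ⊆ D) ∧
    (∀ Y, Y ⊆ W → rk G F W q Y < q → X ⊆ cl G F W q Y → cl G F W q X ⊆ cl G F W q Y) ∧
    (∀ Y, Y ⊆ W → X ⊆ Y → rk G F W q Y = rk G F W q X →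
      Y ⊆ cl G F W q X ∧ cl G F W q Y = cl G F W q X) ∧
    (∀ Y, rk G F W q (cl G F W q X ∪ Y) = rk G F W q (X ∪ Y))

/-- BAS: bases -/
def ST_BAS : Prop :=
  ∀ (V : Type) [Fintype V] [DecidableEq V] (G : SimpleGraph V) (F : Finset V → Prop)
    (W : Finset V) (q : ℕ), Hav G F W (2 * q) → ∀ X k, k ≤ rk G F W q X →
    ∃ Y, Y ⊆ X ∧ Y.card = k ∧ rk G F W q Y = k

/-- IND: absorbing closure and the independence lemma -/
def ST_IND : Prop :=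
  ∀ (V : Type) [Fintype V] [DecidableEq V] (G : SimpleGraph V) (F : Finset V → Prop)
    (W : Finset V) (q : ℕ), Hav G F W (2 * q) → ∀ T, T ⊆ W →
    rk G F W q T = T.card → 625 * T.card < q →
    ∃ D, T ⊆ D ∧ D ⊆ W ∧ cl G F W q D = D ∧ rk G F W q D ≤ 625 * T.card ∧
      ∀ X, X ⊆ W → rk G F W q (D ∪ X) < q →
      ∀ E, E ⊆ Nb G W (W \ cl G F W q (D ∪ X)) → Disjoint E D → E.card ≤ 4 →
        rk G F W q (T ∪ E) = T.card + E.card

/-- `T` is linked to the haven of `W` -/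
def Indep {V : Type} [DecidableEq V] (G : SimpleGraph V) (F : Finset V → Prop)
    (W T : Finset V) : Prop :=
  ∀ C, Big G F W C → Disjoint C T → T.card ≤ (Nb G W C).card

/-- STEP: one more object -/
def ST_STEP : Prop :=
  ∀ (V : Type) [Fintype V] [DecidableEq V] (G : SimpleGraph V) (F : Finset V → Prop),
    (∀ M, F M → Conn G M) → ∀ (W T : Finset V) (q x0 : ℕ), T ⊆ W → Indep G F W T →
    Hav G F W (2 * q) → 625 * T.card + x0 < q →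
    (∀ C, Big G F W C → (Nb G W C).card < q →
      ∃ X, X ⊆ C ∧ X.card ≤ x0 ∧ ∀ C', C' ⊆ C \ X → Conn G C' → Has F C' → Clos G F C C') →
    ∃ (C' K : Finset V) (ρ : List V) (L : V → Finset V) (z : V → V),
      C' ⊆ W \ T ∧ Big G F W C' ∧ (Nb G W C').card < q ∧
      K ⊆ (W \ T) \ C' ∧ ρ.Nodup ∧ (∀ x ∈ ρ, x ∈ K) ∧ Prom G F C' K ρ ∧
      (∀ t ∈ T, Conn G (L t) ∧ t ∈ L t ∧ z t ∈ L t ∧ L t ⊆ W \ C' ∧ ∀ x ∈ ρ, x ∉ L t) ∧
      (∀ t ∈ T, ∀ t' ∈ T, t ≠ t' → Disjoint (L t) (L t')) ∧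
      Indep G F (C' ∪ (T.image z ∪ ρ.toFinset)) (T.image z ∪ ρ.toFinset)

/-- a state of the construction: `O` is a list of objects (body, roots) -/
def Sta {V : Type} [DecidableEq V] (G : SimpleGraph V) (F : Finset V → Prop)
    (W0 W T : Finset V) (O : List (Finset V × List V)) : Prop :=
  T ⊆ W ∧ W ⊆ W0 ∧ Indep G F W T ∧
  (O.map Prod.snd).flatten.Nodup ∧ (∀ t, t ∈ T ↔ t ∈ (O.map Prod.snd).flatten) ∧
  (∀ o ∈ O, o.1 ⊆ W0 ∧ (∀ t ∈ o.2, t ∈ o.1) ∧ Disjoint o.1 (W \ T) ∧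
    Prom G F (W \ T) o.1 o.2) ∧
  (∀ v, (O.filter (fun o => decide (v ∈ o.1))).length ≤ 2)

/-- TRA: transport of promises along the links -/
def ST_TRA : Prop :=
  ∀ (V : Type) [Fintype V] [DecidableEq V] (G : SimpleGraph V) (F : Finset V → Prop)
    (R R' B : Finset V) (ρ : List V) (L : V → Finset V) (z : V → V),
    ρ.Nodup → R' ⊆ R → (∀ t ∈ ρ, t ∈ B) →
    (∀ t ∈ ρ, Conn G (L t) ∧ t ∈ L t ∧ z t ∈ L t ∧ L t \ {t} ⊆ R ∧ Disjoint (L t) R') →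
    (∀ t ∈ ρ, ∀ t' ∈ ρ, t ≠ t' → Disjoint (L t) (L t')) →
    Prom G F R B ρ → Prom G F R' (B ∪ ρ.toFinset.biUnion L) (ρ.map z)

/-- ITR1: one step of the construction -/
def ST_ITR1 : Prop :=
  ∀ (V : Type) [Fintype V] [DecidableEq V] (G : SimpleGraph V) (F : Finset V → Prop),
    (∀ M, F M → Conn G M) → ∀ (W0 W T : Finset V) (O : List (Finset V × List V)) (q x0 : ℕ),
    Sta G F W0 W T O → Hav G F W (2 * q) → 2500 * O.length + x0 < q →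
    (∀ C, Big G F W C → (Nb G W C).card < q →
      ∃ X, X ⊆ C ∧ X.card ≤ x0 ∧ ∀ C', C' ⊆ C \ X → Conn G C' → Has F C' → Clos G F C C') →
    ∃ W' T' O', Sta G F W0 W' T' O' ∧ O'.length = O.length + 1 ∧
      ∀ n, ¬ Ht F W (n + q) → ¬ Ht F W' n

/-- ITR: the construction -/
def ST_ITR : Prop :=
  ∀ (V : Type) [Fintype V] [DecidableEq V] (G : SimpleGraph V) (F : Finset V → Prop),
    (∀ M, F M → Conn G M) → ∀ (W : Finset V) (K q x0 B0 : ℕ), 2500 * K + x0 < q →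
    (∀ W', W' ⊆ W → ¬ Ht F W' B0 → Hav G F W' (2 * q)) →
    (∀ C, C ⊆ W → Conn G C → ¬ Ht F C B0 →
      ∃ X, X ⊆ C ∧ X.card ≤ x0 ∧ ∀ C', C' ⊆ C \ X → Conn G C' → Has F C' → Clos G F C C') →
    ∀ j ≤ K, ¬ Ht F W (B0 + (j + 1) * q) →
      ∃ W' T O, Sta G F W W' T O ∧ O.length = j ∧ ¬ Ht F W' (B0 + q)

/-- PATHR: disjoint connected sets of large rank -/
def ST_PATHR : Prop :=
  ∀ (V : Type) [Fintype V] [DecidableEq V] (G : SimpleGraph V) (F : Finset V → Prop)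
    (W : Finset V) (q M k : ℕ), Hav G F W (2 * q) → M * k ≤ q → 1 ≤ k →
    ∃ P : Fin M → Finset V, (∀ i, P i ⊆ W ∧ Conn G (P i) ∧ k ≤ rk G F W q (P i)) ∧
      ∀ i j, i ≠ j → Disjoint (P i) (P j)

/-- LNK: linkages between independent sets -/
def ST_LNK : Prop :=
  ∀ (V : Type) [Fintype V] [DecidableEq V] (G : SimpleGraph V) (F : Finset V → Prop)
    (W : Finset V) (q k : ℕ), Hav G F W (2 * q) → ∀ Y Y', Y ⊆ W → Y' ⊆ W → Y.card = k →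
    Y'.card = k → rk G F W q Y = k → rk G F W q Y' = k →
    ∃ L : Fin k → Finset V,
      (∀ i, L i ⊆ W ∧ Conn G (L i) ∧ (L i ∩ Y).Nonempty ∧ (L i ∩ Y').Nonempty) ∧
      ∀ i j, i ≠ j → Disjoint (L i) (L j)

/-- SEL: selection lemma -/
def ST_SEL : Prop :=
  ∀ p L : ℕ, ∃ s : ℕ, ∀ (α : Type) (R : α → α → Prop), (∀ a b, R a b → R b a) →
    ∀ f : Fin p → Fin s → α,
      (∃ c : Fin p → Fin s, ∀ i j, i ≠ j → ¬ R (f i (c i)) (f j (c j))) ∨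
      (∃ i j, i ≠ j ∧ ∃ u v : Fin L → Fin s, Function.Injective u ∧ Function.Injective v ∧
        ∀ a b, R (f i (u a)) (f j (v b)))

/-- XBAR: the crossbar -/
def ST_XBAR : Prop :=
  ∀ n N : ℕ, ∃ θ : ℕ, ∀ (V : Type) [Fintype V] [DecidableEq V] (G : SimpleGraph V)
    (F : Finset V → Prop) (W : Finset V), Hav G F W θ →
    ∃ A : Fin N → Finset (V × Bool),
      (∀ i, Conn (BU G) (A i) ∧ ∀ x ∈ A i, x.1 ∈ W) ∧
      (∀ i j, i ≠ j → Disjoint (A i) (A j) ∧ AdjS (BU G) (A i) (A j)) ∧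
      ∀ i, ∀ S : Finset V, S.card < n → ∃ x ∈ A i, x.1 ∈ bt G F W S

/-- MENC: Menger with contracted sets -/
def ST_MENC : Prop :=
  ∀ (V : Type) [Fintype V] [DecidableEq V] (G : SimpleGraph V) (Z : Finset V) (N k : ℕ)
    (A : Fin N → Finset V) (J : Finset (Fin N)),
    (∀ i, Conn G (A i) ∧ Disjoint (A i) Z) → (∀ i j, i ≠ j → Disjoint (A i) (A j)) →
    (∀ U : Finset V, Disjoint U (J.biUnion A) →
      k ≤ ((Nb G univ U \ J.biUnion A) ∪ (Z \ U)).card +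
        ({j ∈ J | (Nb G univ U ∩ A j).Nonempty} : Finset (Fin N)).card) →
    ∃ R : Fin k → Finset V,
      (∀ i, Conn G (R i) ∧ (R i ∩ Z).Nonempty ∧ ∃ j ∈ J, A j ⊆ R i) ∧
      ∀ i j, i ≠ j → Disjoint (R i) (R j)

/-- RCM: rooted clique minors -/
def ST_RCM : Prop :=
  ∀ (V : Type) [Fintype V] [DecidableEq V] (G : SimpleGraph V) (Z : Finset V) (N : ℕ)
    (A : Fin N → Finset V), (Z.card + 1) ^ 2 ≤ N →
    (∀ i, Conn G (A i) ∧ Disjoint (A i) Z) →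
    (∀ i j, i ≠ j → Disjoint (A i) (A j) ∧ AdjS G (A i) (A j)) →
    (∀ i S U, S.card < Z.card → Disjoint (A i) S → Z \ S ⊆ U → Nb G univ U ⊆ S →
      ¬ Disjoint U (A i)) →
    ∃ R : V → Finset V, (∀ z ∈ Z, Conn G (R z) ∧ z ∈ R z) ∧
      ∀ z ∈ Z, ∀ z' ∈ Z, z ≠ z' → Disjoint (R z) (R z') ∧ AdjS G (R z) (R z')

/-- the blow-up of `G[W]` without the edges inside `T` -/
def BT {V : Type} (G : SimpleGraph V) (W T : Finset V) : SimpleGraph (V × Bool) where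
  Adj x y := x.1 ∈ W ∧ y.1 ∈ W ∧
    ((G.Adj x.1 y.1 ∧ ¬ (x.1 ∈ T ∧ y.1 ∈ T)) ∨ (x.1 = y.1 ∧ x.2 ≠ y.2))
  symm := by
    constructor
    rintro x y ⟨hx, hy, h | h⟩
    · exact ⟨hy, hx, Or.inl ⟨h.1.symm, fun h' => h.2 ⟨h'.2, h'.1⟩⟩⟩
    · exact ⟨hy, hx, Or.inr ⟨h.1.symm, h.2.symm⟩⟩
  loopless := by
    constructor
    rintro x ⟨_, _, h | h⟩
    · exact G.loopless.irrefl _ h.1
    · exact h.2 rfl

/-- rooted sets in the blow-up -/
def Rooted {V : Type} [DecidableEq V] (G : SimpleGraph V) (W T : Finset V)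
    (R : V × Bool → Finset (V × Bool)) : Prop :=
  (∀ z, z.1 ∈ T → Conn (BT G W T) (R z) ∧ z ∈ R z) ∧
  ∀ z z', z.1 ∈ T → z'.1 ∈ T → z ≠ z' → Disjoint (R z) (R z') ∧ AdjS (BT G W T) (R z) (R z')

/-- CLO1: rooted sets from the haven -/
def ST_CLO1 : Prop :=
  ∀ n : ℕ, ∃ θ : ℕ, ∀ (V : Type) [Fintype V] [DecidableEq V] (G : SimpleGraph V)
    (F : Finset V → Prop), (∀ M, F M → Conn G M) → ∀ (W T : Finset V), T ⊆ W → T.card = n →
    Indep G F W T → Hav G F W n → Hav G F (W \ T) θ →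
    ∃ R : V × Bool → Finset (V × Bool), Rooted G W T R

/-- CLO2: links between two roots -/
def ST_CLO2 : Prop :=
  ∀ (V : Type) [Fintype V] [DecidableEq V] (G : SimpleGraph V) (W T : Finset V)
    (R : V × Bool → Finset (V × Bool)), T ⊆ W → Rooted G W T R →
    ∀ a ∈ T, ∀ b ∈ T, a ≠ b → ∀ i : Bool,
    ∃ L : Finset V, L ⊆ W \ T ∧ Conn G L ∧ Ad G a L ∧ Ad G b L ∧
      ∀ v ∈ L, ∃ j : Bool, (v, j) ∈ R (a, i) ∪ R (b, i)

/-- Q4: two disjoint links from four links -/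
def ST_Q4 : Prop :=
  ∀ (V : Type) [Fintype V] [DecidableEq V] (G : SimpleGraph V) (a b c d : V)
    (Qac Qbd Qad Qbc : Finset V), [a, b, c, d].Nodup →
    (∀ x ∈ [a, b, c, d], x ∉ Qac ∧ x ∉ Qbd ∧ x ∉ Qad ∧ x ∉ Qbc) →
    (Conn G Qac ∧ Conn G Qbd ∧ Conn G Qad ∧ Conn G Qbc) →
    (Ad G a Qac ∧ Ad G c Qac) → (Ad G b Qbd ∧ Ad G d Qbd) → (Ad G a Qad ∧ Ad G d Qad) →
    (Ad G b Qbc ∧ Ad G c Qbc) →
    (∀ v, ¬ (v ∈ Qac ∧ v ∈ Qbd ∧ v ∈ Qad ∧ v ∈ Qbc)) →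
    ∃ L L', L ⊆ Qac ∪ Qbd ∪ Qad ∪ Qbc ∧ L' ⊆ Qac ∪ Qbd ∪ Qad ∪ Qbc ∧ Disjoint L L' ∧
      Conn G L ∧ Conn G L' ∧ Ad G a L ∧ Ad G b L' ∧
      ((Ad G c L ∧ Ad G d L') ∨ (Ad G d L ∧ Ad G c L'))

/-- FIN: the final packing -/
def ST_FIN : Prop :=
  ∀ (V : Type) [Fintype V] [DecidableEq V] (G : SimpleGraph V) (F : Finset V → Prop)
    (W0 W T : Finset V) (O : List (Finset V × List V)) (R : V × Bool → Finset (V × Bool)),
    Sta G F W0 W T O → Rooted G W T R → Pk F O.length W0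

/-- ENG: the engine -/
def ST_ENG : Prop :=
  ∀ (h : ℕ → ℕ) (x0 : ℕ), ∃ f : ℕ → ℕ, ∀ (V : Type) [Fintype V] [DecidableEq V]
    (G : SimpleGraph V) (F : Finset V → Prop), (∀ M, F M → Conn G M) → Loc G F h x0 →
    ∀ W k, Pk F k W ∨ Ht F W (f k)

end ErdPos
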