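import Pool.Agent.Helper72.EP.Defs2

/-! # Labelled graphs: module statements -/

namespace ErdPos

open Finset

/-- PA: path calculus -/
def ST_PA : Prop := ∀ (V : Type) [DecidableEq V] (G : SimpleGraph V), PApi G

/-- CA: cycle calculus -/
def ST_CA : Prop := ∀ (V : Type) [DecidableEq V] (G : SimpleGraph V), CApi G

/-- DL: the demand lemma -/
def ST_DL : Prop :=
  ∃ g : ℕ → ℕ, ∀ (V : Type) [Fintype V] [DecidableEq V] (G : SimpleGraph V) (ι : Type)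
    (a b : ι → V) (fl : ι → Prop) (U : Finset V) (k : ℕ), (∀ i, fl i → a i ≠ b i) →
    (∃ (I : Finset ι) (S : ι → Finset V), I.card = k ∧
      (∀ i ∈ I, S i ⊆ U ∧ (∃ T, Pth G (a i) (b i) (S i) T) ∧ (fl i → 3 ≤ (S i).card)) ∧
      ∀ v, (I.filter (fun i => v ∈ S i)).card ≤ 4) ∨
    (∃ Z : Finset V, Z.card ≤ g k ∧ ∀ i S T, Pth G (a i) (b i) S T → S ⊆ U →
      (fl i → 3 ≤ S.card) → ∃ v ∈ S, v ∈ Z)

/-- ROB: robust vertices -/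
def ST_ROB : Prop :=
  ∀ (V : Type) [Fintype V] [DecidableEq V] (G : SimpleGraph V) (F : Finset V → Prop)
    (C : Finset V), Ctx G F C →
    (∀ a b S T, Pth G a b S T → S ⊆ C → a ≠ b → Rob G F C a → Rob G F C b →
      ∀ x ∈ S, Rob G F C x) ∧
    (∀ S T, Cyc G S T → S ⊆ C → ∀ a ∈ S, ∀ b ∈ S, a ≠ b → Rob G F C a → Rob G F C b →
      ∀ x ∈ S, Rob G F C x) ∧
    (∀ a, Rob G F C a → rk G F C 5 {a} = 1) ∧
    (∀ a b, Rob G F C a → Rob G F C b → a ≠ b → rk G F C 5 {a, b} = 2)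

/-- HUL: hulls -/
def ST_HUL : Prop :=
  ∀ (V : Type) [Fintype V] [DecidableEq V] (G : SimpleGraph V) (F : Finset V → Prop)
    (C : Finset V), Ctx G F C →
    (∀ a b, Rob G F C a → Rob G F C b → G.Adj a b →
      Hul G F C (cl G F C 5 {a, b}) ∧ a ∈ cl G F C 5 {a, b} ∧ b ∈ cl G F C 5 {a, b}) ∧
    (∀ A, Hul G F C A → A ⊆ C ∧ rk G F C 5 A = 2 ∧ cl G F C 5 A = A ∧ Big G F C (C \ A) ∧
      (Zt G C A).card = 2 ∧ Zt G C A ⊆ A ∧ (∀ z ∈ Zt G C A, Rob G F C z) ∧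
      (∀ c d, Rob G F C c → Rob G F C d → c ≠ d → c ∈ A → d ∈ A → cl G F C 5 {c, d} = A) ∧
      (∀ C', C' ⊆ C → Conn G C' → Has F C' → Disjoint C' (Zt G C A) → Disjoint C' A) ∧
      (∀ x ∈ A, x ∉ Zt G C A → ∀ y ∈ C, G.Adj x y → y ∈ A) ∧
      (∀ D, Big G F C D → Disjoint D A → (Nb G C D).card ≤ 2 → C \ A ⊆ D))

/-- HU3: two hulls meet only in common attachments (among the robust vertices) -/
def ST_HU3 : Prop :=
  ∀ (V : Type) [Fintype V] [DecidableEq V] (G : SimpleGraph V) (F : Finset V → Prop)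
    (C : Finset V), Ctx G F C →
    (∀ A A', Hul G F C A → Hul G F C A' → A ≠ A' → ∀ c, Rob G F C c → c ∈ A → c ∈ A' →
      c ∈ Zt G C A) ∧
    (∀ A, Hul G F C A → ∀ x ∈ A, TVx G F C x → x ∈ Zt G C A) ∧
    (∀ x, TVx G F C x → Rob G F C x)

/-- HU5: two disjoint links around a hull -/
def ST_HU5 : Prop :=
  ∀ (V : Type) [Fintype V] [DecidableEq V] (G : SimpleGraph V) (F : Finset V → Prop)
    (C : Finset V), Ctx G F C → ∀ A u v, Hul G F C A → Zt G C A = {u, v} → u ≠ v →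
    ∃ P1 P2, P1 ⊆ C \ A ∧ P2 ⊆ C \ A ∧ Disjoint P1 P2 ∧ Conn G P1 ∧ Conn G P2 ∧
      Ad G u P1 ∧ Ad G v P1 ∧ Ad G u P2 ∧ Ad G v P2

/-- PEEL: first hull path of a path between torso vertices -/
def ST_PEEL : Prop :=
  ∀ (V : Type) [Fintype V] [DecidableEq V] (G : SimpleGraph V) (F : Finset V → Prop)
    (C : Finset V), Ctx G F C → ∀ s t S T, Pth G s t S T → S ⊆ C → s ≠ t →
    TVx G F C s → TVx G F C t →
    ∃ A s' S1 T1 S2 T2, HP G F C A s s' S1 T1 ∧ Pth G s' t S2 T2 ∧ S2 ∩ A = {s'} ∧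
      S1 ∩ S2 = {s'} ∧ S1 ∪ S2 = S ∧ Disjoint T1 T2 ∧ T1 ∪ T2 = T ∧ TVx G F C s' ∧ s ∉ S2

/-- CPEEL: a hull path on a cycle -/
def ST_CPEEL : Prop :=
  ∀ (V : Type) [Fintype V] [DecidableEq V] (G : SimpleGraph V) (F : Finset V → Prop)
    (C : Finset V), Ctx G F C → ∀ S T a b z, Cyc G S T → S ⊆ C → (∀ x ∈ S, Rob G F C x) →
    s(a, b) ∈ T → z ∈ S → z ∉ cl G F C 5 {a, b} →
    ∃ u v S1 T1 S2 T2, HP G F C (cl G F C 5 {a, b}) u v S1 T1 ∧ s(a, b) ∈ T1 ∧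
      Pth G u v S2 T2 ∧ S2 ∩ cl G F C 5 {a, b} = {u, v} ∧ z ∈ S2 ∧ S1 ∩ S2 = {u, v} ∧
      S1 ∪ S2 = S ∧ Disjoint T1 T2 ∧ T1 ∪ T2 = T

/-- DEC: decomposition into hull paths -/
def ST_DEC : Prop :=
  ∀ (V : Type) [Fintype V] [DecidableEq V] (G : SimpleGraph V) (F : Finset V → Prop)
    (C : Finset V), Ctx G F C → ∀ (M : Type) [AddCommMonoid M] (φ : Sym2 V → M)
    (P : AddSubmonoid M),
    (∀ A u v S T, HP G F C A u v S T → ∑ e ∈ T, φ e ∈ P) →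
    (∀ s t S T, Pth G s t S T → S ⊆ C → TVx G F C s → TVx G F C t → ∑ e ∈ T, φ e ∈ P) ∧
    (∀ S T, GC G F C S T → ∑ e ∈ T, φ e ∈ P)

/-- THE: theta graphs -/
def ST_THE : Prop :=
  ∀ (V : Type) [Fintype V] [DecidableEq V] (G : SimpleGraph V) (φ : Sym2 V → ℤ) (u v : V)
    (S : Finset V) (T : Finset (Sym2 V)) (L1 L2 : Finset V), u ≠ v → Pth G u v S T →
    Conn G L1 → Conn G L2 → Disjoint L1 S → Disjoint L2 S → Disjoint L1 L2 →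
    Ad G u L1 → Ad G v L1 → Ad G u L2 → Ad G v L2 →
    ¬ (∑ e ∈ T, φ e = 0 ∨ ∑ e ∈ T, φ e = 1) →
    ∃ S' T', Cyc G S' T' ∧ S' ⊆ S ∪ (L1 ∪ L2) ∧ ¬ (∑ e ∈ T', φ e = 0 ∨ ∑ e ∈ T', φ e = 1)

/-- CER3: a bad hull path is closable -/
def ST_CER3 : Prop :=
  ∀ (V : Type) [Fintype V] [DecidableEq V] (G : SimpleGraph V) (F : Finset V → Prop)
    (C : Finset V), Ctx G F C → ∀ (φ : Sym2 V → ℤ),
    (∀ S T, Cyc G S T → ¬ (∑ e ∈ T, φ e = 0 ∨ ∑ e ∈ T, φ e = 1) → F S) →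
    ∀ A u v S T, HP G F C A u v S T → ¬ (∑ e ∈ T, φ e = 0 ∨ ∑ e ∈ T, φ e = 1) → LC G F C

/-- CONF: the conflict cycle -/
def ST_CONF : Prop :=
  ∀ (V : Type) [Fintype V] [DecidableEq V] (G : SimpleGraph V) (F : Finset V → Prop)
    (C : Finset V), Ctx G F C → ∀ (φ : Sym2 V → ℤ),
    (∀ A u v S T, HP G F C A u v S T → 0 ≤ ∑ e ∈ T, φ e) →
    ∀ A u v S T A' u' v' S' T', A ≠ A' → HP G F C A u v S T → HP G F C A' u' v' S' T' →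
    ∑ e ∈ T, φ e = 1 → ∑ e ∈ T', φ e = 1 →
    ∀ M1 M2, M1 ⊆ C → M2 ⊆ C → Conn G M1 → Conn G M2 → Disjoint M1 M2 →
    u ∈ M1 → v ∈ M2 → ((u' ∈ M1 ∧ v' ∈ M2) ∨ (v' ∈ M1 ∧ u' ∈ M2)) →
    ∃ S0 T0, Cyc G S0 T0 ∧ S0 ⊆ S ∪ S' ∪ (M1 ∪ M2) ∧ 2 ≤ ∑ e ∈ T0, φ e

/-- CER4: a conflict is closable -/
def ST_CER4 : Prop :=
  ∀ (V : Type) [Fintype V] [DecidableEq V] (G : SimpleGraph V) (F : Finset V → Prop)
    (C : Finset V), Ctx G F C → ∀ (φ : Sym2 V → ℤ),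
    (∀ S T, Cyc G S T → ¬ (∑ e ∈ T, φ e = 0 ∨ ∑ e ∈ T, φ e = 1) → F S) →
    (∀ A u v S T, HP G F C A u v S T → 0 ≤ ∑ e ∈ T, φ e) →
    ∀ A u v S T A' u' v' S' T', A ≠ A' → HP G F C A u v S T → HP G F C A' u' v' S' T' →
    ∑ e ∈ T, φ e = 1 → ∑ e ∈ T', φ e = 1 → LC G F C

/-- ZO: without bad hull paths and conflicts all good cycles have 0/1 values -/
def ST_ZO : Prop :=
  ∀ (V : Type) [Fintype V] [DecidableEq V] (G : SimpleGraph V) (F : Finset V → Prop)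
    (C : Finset V), Ctx G F C → ∀ (φ : Sym2 V → ℤ),
    (∀ A u v S T, HP G F C A u v S T → ∑ e ∈ T, φ e = 0 ∨ ∑ e ∈ T, φ e = 1) →
    (∀ A u v S T A' u' v' S' T', HP G F C A u v S T → HP G F C A' u' v' S' T' →
      ∑ e ∈ T, φ e = 1 → ∑ e ∈ T', φ e = 1 → A = A') →
    ∀ S T, GC G F C S T → ∑ e ∈ T, φ e = 0 ∨ ∑ e ∈ T, φ e = 1

/-- ARC: an odd arc outside `C'` -/
def ST_ARC : Prop :=
  ∀ (V : Type) [Fintype V] [DecidableEq V] (G : SimpleGraph V) (S : Finset V)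
    (T : Finset (Sym2 V)) (C' : Finset V) (w : Sym2 V → ZMod 2), Cyc G S T →
    (S ∩ C').Nonempty → (∀ e ∈ T, (∃ v ∈ C', v ∈ e) → w e = 0) → ∑ e ∈ T, w e = 1 →
    ∃ y y' S1 T1, Pth G y y' S1 T1 ∧ S1 ⊆ S \ C' ∧ T1 ⊆ T ∧ Ad G y C' ∧ Ad G y' C' ∧
      ∑ e ∈ T1, w e = 1

/-- CER5: a parity violation is closable -/
def ST_CER5 : Prop :=
  ∀ (V : Type) [Fintype V] [DecidableEq V] (G : SimpleGraph V) (F : Finset V → Prop)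
    (C : Finset V), Ctx G F C → ∀ (H : Finset (Finset V)) (p : Sym2 V → ZMod 2),
    H.card ≤ 6 → (∀ A ∈ H, Hul G F C A) →
    (∀ A u v S T, HP G F C A u v S T → A ∉ H → ∑ e ∈ T, p e = 0) →
    (∀ S T, Cyc G S T → ∑ e ∈ T, p e = 1 → F S) →
    ∀ S T, GC G F C S T → ∑ e ∈ T, p e = 1 → LC G F C

/-- POT: potentials -/
def ST_POT : Prop :=
  ∀ (V : Type) [Fintype V] [DecidableEq V] (G : SimpleGraph V) (C : Finset V), Conn G C →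
    ∀ (M : Type) [AddCommGroup M] (ψ : Sym2 V → M), (∀ m : M, m + m = 0) →
    (∀ S T, Cyc G S T → S ⊆ C → ∑ e ∈ T, ψ e = 0) →
    ∃ y : V → M, ∀ a b S T, Pth G a b S T → S ⊆ C → ∑ e ∈ T, ψ e = y a + y b

/-- TSYS: the torso system -/
def ST_TSYS : Prop :=
  ∀ (V : Type) [Fintype V] [DecidableEq V] (E X : Type) (G : SimpleGraph V)
    (γ : Sym2 V → E →₀ ℤ) (inc : E → X → Prop) (𝒟 : Set (Finset E)) (C : Finset V),
    IsSys inc 𝒟 → Cons G γ inc 𝒟 C →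
    ∃ y : V → X → ZMod 2, TSys inc 𝒟 (carH G (FA G γ inc 𝒟) C γ)
      (TDg G (FA G γ inc 𝒟) C γ) (ZZg G (FA G γ inc 𝒟) C γ) y

/-- PROJ: cycles of `C` give `D`-cycles -/
def ST_PROJ : Prop :=
  ∀ (V : Type) [Fintype V] [DecidableEq V] (E X : Type) (G : SimpleGraph V)
    (γ : Sym2 V → E →₀ ℤ) (inc : E → X → Prop) (𝒟 : Set (Finset E)) (C : Finset V),
    IsSys inc 𝒟 → Cons G γ inc 𝒟 C → ∀ D ∈ 𝒟, ∀ S T, Cyc G S T → S ⊆ C →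
    IsInd D (vl γ T) → ∃ S' T', S' ⊆ S ∧
      DCyc (carH G (FA G γ inc 𝒟) C γ) (TDg G (FA G γ inc 𝒟) C γ) D S' T'

/-- LIFT: `D`-cycles give cycles of `C` -/
def ST_LIFT : Prop :=
  ∀ (V : Type) [Fintype V] [DecidableEq V] (E X : Type) (G : SimpleGraph V)
    (γ : Sym2 V → E →₀ ℤ) (inc : E → X → Prop) (𝒟 : Set (Finset E)) (C : Finset V),
    IsSys inc 𝒟 → Cons G γ inc 𝒟 C → ∀ D ∈ 𝒟, ∀ S' T',
    DCyc (carH G (FA G γ inc 𝒟) C γ) (TDg G (FA G γ inc 𝒟) C γ) D S' T' →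
    ∃ S T, Cyc G S T ∧ S ⊆ C ∧ IsInd D (vl γ T) ∧
      (∀ x ∈ S, TVx G (FA G γ inc 𝒟) C x → x ∈ S') ∧
      (∀ x ∈ S, ¬ TVx G (FA G γ inc 𝒟) C x → Rob G (FA G γ inc 𝒟) C x ∧
        ∃ A, Hul G (FA G γ inc 𝒟) C A ∧ x ∈ A ∧ Zt G C A ⊆ S')

/-- UARC: the arc of a `D`-cycle in a component of the zero graph -/
def ST_UARC : Prop :=
  ∀ (V : Type) [Fintype V] [DecidableEq V] (E X : Type) (inc : E → X → Prop)
    (𝒟 : Set (Finset E)) (carry : Sym2 V → Set E) (TD : Finset E → SimpleGraph V)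
    (ZZ : SimpleGraph V) (y : V → X → ZMod 2), IsSys inc 𝒟 → TSys inc 𝒟 carry TD ZZ y →
    ∀ D ∈ 𝒟, ∀ U, IsComp ZZ univ U → ∀ S T, DCyc carry TD D S T →
    (∀ w ∈ att carry D U, w ∈ S) ∧
    ((S ∩ U).Nonempty → ∃ a b, att carry D U = {a, b} ∧
      ((a = b ∧ S ∩ U = {a}) ∨
       (a ≠ b ∧ ∃ T1 S2 T2, Pth ZZ a b (S ∩ U) T1 ∧ Pth (TD D) b a S2 T2 ∧ S2 ∩ U = {a, b} ∧
        S2 ⊆ S ∧ (∀ f ∈ D, ∃ h ∈ T2, f ∈ carry h) ∧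
        ((∃ f ∈ D, f ∈ carry s(a, b)) → 3 ≤ (S ∩ U).card) ∧
        (T2 = {s(a, b)} → ∃ f ∈ D, f ∈ carry s(a, b)))))

/-- I3: two components share at most three indices -/
def ST_I3 : Prop :=
  ∀ (V : Type) [Fintype V] [DecidableEq V] (E X : Type) (inc : E → X → Prop)
    (𝒟 : Set (Finset E)) (carry : Sym2 V → Set E) (TD : Finset E → SimpleGraph V)
    (ZZ : SimpleGraph V) (y : V → X → ZMod 2), IsSys inc 𝒟 → TSys inc 𝒟 carry TD ZZ y →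
    ∀ U U', IsComp ZZ univ U → IsComp ZZ univ U' → U ≠ U' →
    ∀ P : Finset (Finset E), (∀ D ∈ P, D ∈ 𝒟 ∧
      ∃ S T, DCyc carry TD D S T ∧ (S ∩ U).Nonempty ∧ (S ∩ U').Nonempty) → P.card ≤ 3

/-- REPL: replacing the arc in a component -/
def ST_REPL : Prop :=
  ∀ (V : Type) [Fintype V] [DecidableEq V] (E X : Type) (inc : E → X → Prop)
    (𝒟 : Set (Finset E)) (carry : Sym2 V → Set E) (TD : Finset E → SimpleGraph V)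
    (ZZ : SimpleGraph V) (y : V → X → ZMod 2), IsSys inc 𝒟 → TSys inc 𝒟 carry TD ZZ y →
    ∀ D ∈ 𝒟, ∀ U, IsComp ZZ univ U → ∀ S T, DCyc carry TD D S T → ∀ a b,
    att carry D U = {a, b} → ∀ S' T', Pth ZZ a b S' T' → S' ⊆ U →
    ((∃ f ∈ D, f ∈ carry s(a, b)) → 3 ≤ S'.card) →
    ∃ S'' T'', DCyc carry TD D S'' T'' ∧ S'' ⊆ S' ∪ (S \ U)

/-- TEP: Erdős–Pósa for torso systems -/
def ST_TEP : Prop :=
  ∃ h : ℕ → ℕ, ∀ (V : Type) [Fintype V] [DecidableEq V] (E X : Type) (inc : E → X → Prop)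
    (𝒟 : Set (Finset E)) (carry : Sym2 V → Set E) (TD : Finset E → SimpleGraph V)
    (ZZ : SimpleGraph V) (y : V → X → ZMod 2), IsSys inc 𝒟 → TSys inc 𝒟 carry TD ZZ y →
    ∀ k : ℕ,
    (∃ (P : Finset (Finset E)) (S : Finset E → Finset V), P.card = k ∧
      (∀ D ∈ P, D ∈ 𝒟 ∧ ∃ T, DCyc carry TD D (S D) T) ∧
      ∀ v, (P.filter (fun D => v ∈ S D)).card ≤ 4) ∨
    (∃ Z : Finset V, Z.card ≤ h k ∧ ∀ D ∈ 𝒟, ∀ S T, DCyc carry TD D S T → ∃ v ∈ S, v ∈ Z)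

/-- CONS: the consistent case -/
def ST_CONS : Prop :=
  ∃ h : ℕ → ℕ, ∀ (V : Type) [Fintype V] [DecidableEq V] (E X : Type) (G : SimpleGraph V)
    (γ : Sym2 V → E →₀ ℤ) (inc : E → X → Prop) (𝒟 : Set (Finset E)) (C : Finset V),
    IsSys inc 𝒟 → Cons G γ inc 𝒟 C → ∀ k, Pk (FA G γ inc 𝒟) k C ∨ Ht (FA G γ inc 𝒟) C (h k)

/-- LOC0: the cases of type 0: either done or all `A`-cycles in `C` are good -/
def ST_LOC0 : Prop :=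
  ∀ (V : Type) [Fintype V] [DecidableEq V] (G : SimpleGraph V) (F : Finset V → Prop)
    (C : Finset V), Ctx G F C → (∀ M, F M → ∃ T, Cyc G M T) →
    LC G F C ∨ ∀ M, F M → M ⊆ C → (∀ x ∈ M, Rob G F C x) ∧ ∀ A, Hul G F C A → ¬ M ⊆ A

/-- LOC: the local hypothesis of the engine holds -/
def ST_LOC : Prop :=
  ∃ h : ℕ → ℕ, ∀ (V : Type) [Fintype V] [DecidableEq V] (E X : Type) (G : SimpleGraph V)
    (γ : Sym2 V → E →₀ ℤ) (inc : E → X → Prop) (𝒟 : Set (Finset E)), IsSys inc 𝒟 →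
    Loc G (FA G γ inc 𝒟) h 12

/-- EP5: the positive half -/
def ST_EP5 : Prop :=
  ∀ (E X : Type) (inc : E → X → Prop) (𝒟 : Set (Finset E)), IsSys inc 𝒟 →
    EP (E →₀ ℤ) (AS inc 𝒟) 5

end ErdPos
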